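import Pool.Agent.Helper85.TS.Refl

/-! Gluing of embeddings of annuli. -/

namespace Pool.Agent.Helper85.TS

open ENNReal

/-- The hat function. -/
noncomputable def hat (t : ℝ) : ℝ := max 0 (min (t - 1) (2 - t / 2))

theorem hat_nonneg (t : ℝ) : 0 ≤ hat t := le_max_left _ _

theorem hat_le_one (t : ℝ) : hat t ≤ 1 := by
  unfold hat
  refine max_le zero_le_one ?_
  rcases le_total t 2 with h | h
  · exact (min_le_left _ _).trans (by linarith)
  · exact (min_le_right _ _).trans (by linarith)

theorem hat_lip (s t : ℝ) : |hat s - hat t| ≤ |s - t| := by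
  unfold hat
  refine (abs_max_sub_max_le_max (0 : ℝ) _ 0 _).trans (max_le ?_ ?_)
  · rw [sub_self, abs_zero]; exact abs_nonneg _
  · refine (abs_min_sub_min_le_max _ _ _ _).trans (max_le ?_ ?_)
    · rw [show s - 1 - (t - 1) = s - t by ring]
    · rw [show 2 - s / 2 - (2 - t / 2) = -((s - t) / 2) by ring, abs_neg, abs_div]
      have := abs_nonneg (s - t)
      rw [abs_of_pos (by norm_num : (0 : ℝ) < 2)]
      linarith

theorem hat_zero {t : ℝ} (h : t ≤ 1 ∨ 4 ≤ t) : hat t = 0 := by
  unfold hat
  refine max_eq_left ?_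
  rcases h with h | h
  · exact (min_le_left _ _).trans (by linarith)
  · exact (min_le_right _ _).trans (by linarith)

theorem le_hat {t : ℝ} (h : t ≤ 3) : t - 1 ≤ hat t ∨ 1 / 2 ≤ hat t := by
  by_cases h1 : t - 1 ≤ 2 - t / 2
  · left
    unfold hat
    rw [min_eq_left h1]
    exact le_max_right _ _
  · right
    push Not at h1
    unfold hat
    rw [min_eq_right h1.le]
    exact le_trans (by linarith) (le_max_right _ _)

section

variable {M : Type*} [MetricSpace M] {E : Type*} [NormedAddCommGroup E] [NormedSpace ℝ E]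

/-- The annuli. -/
def Ann (o : M) (n : ℤ) : Set M := {x | (2 : ℝ) ^ n ≤ dist x o ∧ dist x o ≤ 2 ^ (n + 2)}

/-- The pieces of the glued map. -/
noncomputable def gl (o : M) (f : ℤ → M → E) (x : M) (n : ℤ) : E :=
  hat (dist x o / 2 ^ n) • f n x

theorem two_zpow_pos (n : ℤ) : (0 : ℝ) < 2 ^ n := zpow_pos (by norm_num) n

theorem hat_ann {o x : M} {n : ℤ} (h : x ∉ Ann o n) : hat (dist x o / 2 ^ n) = 0 := by
  have h2 := two_zpow_pos n
  refine hat_zero ?_
  by_cases h1 : (2 : ℝ) ^ n ≤ dist x o
  · right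
    have h3 : ¬ dist x o ≤ 2 ^ (n + 2) := fun h3 => h ⟨h1, h3⟩
    push Not at h3
    rw [zpow_add₀ (by norm_num)] at h3
    rw [le_div_iff₀ h2]
    norm_num at h3
    linarith
  · left
    push Not at h1
    rw [div_le_one h2]
    exact h1.le

theorem gl_ann {o x : M} {n : ℤ} (f : ℤ → M → E) (h : x ∉ Ann o n) : gl o f x n = 0 := by
  rw [gl, hat_ann h, zero_smul]

theorem hat_dist (o x y : M) (n : ℤ) :
    |hat (dist x o / 2 ^ n) - hat (dist y o / 2 ^ n)| ≤ |dist x o - dist y o| / 2 ^ n := by
  refine (hat_lip _ _).trans ?_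
  rw [← sub_div, abs_div, abs_of_pos (two_zpow_pos n)]

theorem gl_lip {o : M} {f : ℤ → M → E} {L K : ℝ} (hL : 0 ≤ L) (hK : 0 ≤ K)
    (hup : ∀ n, ∀ x ∈ Ann o n, ∀ y ∈ Ann o n, ‖f n x - f n y‖ ≤ L * dist x y)
    (hbd : ∀ n, ∀ x ∈ Ann o n, ‖f n x‖ ≤ K * 2 ^ n) (x y : M) (n : ℤ) :
    ‖gl o f x n - gl o f y n‖ ≤ (L + K) * dist x y := by
  have h2 := two_zpow_pos n
  have hd : |dist x o - dist y o| ≤ dist x y := abs_dist_sub_le x y o
  have key : ∀ x y : M, x ∈ Ann o n → y ∉ Ann o n →
      ‖gl o f x n - gl o f y n‖ ≤ (L + K) * dist x y := by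
    intro x y hx hy
    rw [gl_ann f hy, sub_zero, gl, norm_smul]
    have h3 := hat_dist o x y n
    rw [hat_ann hy, sub_zero] at h3
    have h4 : |dist x o - dist y o| ≤ dist x y := abs_dist_sub_le x y o
    calc ‖hat (dist x o / 2 ^ n)‖ * ‖f n x‖ ≤ (dist x y / 2 ^ n) * (K * 2 ^ n) := by
          refine mul_le_mul (h3.trans ?_) (hbd n x hx) (norm_nonneg _) (by positivity)
          gcongr
      _ = K * dist x y := by field_simp
      _ ≤ (L + K) * dist x y := by gcongr; linarith
  by_cases hx : x ∈ Ann o n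
  · by_cases hy : y ∈ Ann o n
    · have h3 : gl o f x n - gl o f y n = hat (dist x o / 2 ^ n) • (f n x - f n y) +
          (hat (dist x o / 2 ^ n) - hat (dist y o / 2 ^ n)) • f n y := by
        simp only [gl, smul_sub, sub_smul]; abel
      rw [h3]
      refine (norm_add_le _ _).trans ?_
      rw [norm_smul, norm_smul, add_mul]
      refine add_le_add ?_ ?_
      · calc ‖hat (dist x o / 2 ^ n)‖ * ‖f n x - f n y‖ ≤ 1 * (L * dist x y) := by
              refine mul_le_mul ?_ (hup n x hx y hy) (norm_nonneg _) zero_le_one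
              rw [Real.norm_of_nonneg (hat_nonneg _)]
              exact hat_le_one _
          _ = L * dist x y := one_mul _
      · calc ‖hat (dist x o / 2 ^ n) - hat (dist y o / 2 ^ n)‖ * ‖f n y‖
            ≤ (dist x y / 2 ^ n) * (K * 2 ^ n) := by
              refine mul_le_mul ((hat_dist o x y n).trans ?_) (hbd n y hy) (norm_nonneg _)
                (by positivity)
              gcongr
          _ = K * dist x y := by field_simp
    · exact key x y hx hy
  · by_cases hy : y ∈ Ann o n
    · have := key y x hy hx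
      rw [norm_sub_rev, dist_comm x y]
      exact this
    · rw [gl_ann f hx, gl_ann f hy, sub_self, norm_zero]
      positivity

/-- The support of the glued map. -/
theorem gl_supp (o : M) (f : ℤ → M → E) (x : M) :
    ∃ s : Finset ℤ, s.card ≤ 2 ∧ ∀ n, n ∉ s → gl o f x n = 0 := by
  by_cases h : dist x o = 0
  · refine ⟨∅, by simp, fun n _ => ?_⟩
    refine gl_ann f fun h1 => ?_
    have := two_zpow_pos n
    have h2 := h1.1
    rw [h] at h2
    linarith
  · have hpos : 0 < dist x o := lt_of_le_of_ne dist_nonneg (Ne.symm h)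
    refine ⟨{Int.log 2 (dist x o) - 1, Int.log 2 (dist x o)}, Finset.card_le_two, fun n hn => ?_⟩
    have h1 : (2 : ℝ) ^ (Int.log 2 (dist x o)) ≤ dist x o := by
      exact_mod_cast Int.zpow_log_le_self (b := 2) (by norm_num) hpos
    have h2 : dist x o < (2 : ℝ) ^ (Int.log 2 (dist x o) + 1) := by
      exact_mod_cast Int.lt_zpow_succ_log_self (b := 2) (by norm_num) (dist x o)
    simp only [Finset.mem_insert, Finset.mem_singleton, not_or] at hn
    rw [gl, hat_zero, zero_smul]
    have h3 := two_zpow_pos n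
    rw [div_le_one h3, le_div_iff₀ h3]
    by_cases h4 : n ≤ Int.log 2 (dist x o)
    · right
      have h5 : n + 2 ≤ Int.log 2 (dist x o) := by omega
      have h6 : (2 : ℝ) ^ (n + 2) ≤ 2 ^ (Int.log 2 (dist x o)) :=
        zpow_le_zpow_right₀ (by norm_num) h5
      rw [zpow_add₀ (by norm_num)] at h6
      norm_num at h6
      linarith
    · left
      have h5 : Int.log 2 (dist x o) + 1 ≤ n := by omega
      have h6 : (2 : ℝ) ^ (Int.log 2 (dist x o) + 1) ≤ 2 ^ n :=
        zpow_le_zpow_right₀ (by norm_num) h5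
      linarith

theorem gl_mem (o : M) (f : ℤ → M → E) (x : M) : Memℓp (gl o f x) 2 := by
  obtain ⟨s, _, hs⟩ := gl_supp o f x
  refine (memℓp_zero (s.finite_toSet.subset fun n hn => ?_)).of_exponent_ge (by norm_num)
  by_contra h
  exact hn (hs n h)

/-- The norm of a finitely supported element. -/
theorem norm_le_supp {E : ℤ → Type*} [∀ i, NormedAddCommGroup (E i)] [∀ i, NormedSpace ℝ (E i)]
    (v : lp E 2) (s : Finset ℤ) (hs : ∀ n, n ∉ s → v n = 0) : ‖v‖ ≤ ∑ n ∈ s, ‖v n‖ := by
  classical
  have h1 : v = ∑ n ∈ s, lp.single 2 n (v n) := by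
    refine lp.ext ?_
    funext n
    rw [lp.coeFn_sum, Finset.sum_apply]
    simp only [lp.coeFn_single]
    by_cases hn : n ∈ s
    · rw [Finset.sum_eq_single n]
      · rw [Pi.single_eq_same]
      · intro m _ hm
        rw [Pi.single_eq_of_ne hm.symm]
      · intro h; exact absurd hn h
    · rw [hs n hn, Finset.sum_eq_zero]
      intro m hm
      rw [Pi.single_eq_of_ne]
      rintro rfl
      exact hn hm
  calc ‖v‖ = ‖∑ n ∈ s, lp.single 2 n (v n)‖ := by rw [← h1]
    _ ≤ ∑ n ∈ s, ‖lp.single (E := E) 2 n (v n)‖ := norm_sum_le _ _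
    _ = ∑ n ∈ s, ‖v n‖ := Finset.sum_congr rfl fun n _ => lp.norm_single (by norm_num) n (v n)

/-- The lower constant of the glued map. -/
noncomputable def cGl (c K : ℝ) : ℝ := min (1 / 8) (c / (4 * (K + 1)))

theorem cGl_pos {c K : ℝ} (hc : 0 < c) (hK : 0 ≤ K) : 0 < cGl c K := by
  unfold cGl
  positivity

/-- Gluing of embeddings of the annuli. -/
theorem glue (o : M) (f : ℤ → M → E) {c L K : ℝ} (hc : 0 < c) (hL : 0 ≤ L) (hK : 0 ≤ K)
    (hlow : ∀ n, ∀ x ∈ Ann o n, ∀ y ∈ Ann o n, c * dist x y ≤ ‖f n x - f n y‖)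
    (hup : ∀ n, ∀ x ∈ Ann o n, ∀ y ∈ Ann o n, ‖f n x - f n y‖ ≤ L * dist x y)
    (hbd : ∀ n, ∀ x ∈ Ann o n, ‖f n x‖ ≤ K * 2 ^ n) :
    ∃ h : M → lp (fun _ : ℤ => E) 2 × ℝ, ∀ x y,
      cGl c K * dist x y ≤ dist (h x) (h y) ∧
      dist (h x) (h y) ≤ (4 * (L + K) + 1) * dist x y := by
  classical
  let g : M → lp (fun _ : ℤ => E) 2 := fun x => ⟨gl o f x, gl_mem o f x⟩
  have hg : ∀ x n, g x n = gl o f x n := fun x n => rfl
  refine ⟨fun x => (g x, dist x o), fun x y => ⟨?_, ?_⟩⟩
  · -- lower bound
    have hcoord : ∀ n, ‖gl o f x n - gl o f y n‖ ≤ dist (g x, dist x o) (g y, dist y o) := by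
      intro n
      rw [Prod.dist_eq]
      refine le_trans ?_ (le_max_left _ _)
      rw [dist_eq_norm]
      exact lp.norm_apply_le_norm (by norm_num) (g x - g y) n
    have hrad : |dist x o - dist y o| ≤ dist (g x, dist x o) (g y, dist y o) := by
      rw [Prod.dist_eq]
      refine le_trans ?_ (le_max_right _ _)
      rw [Real.dist_eq]
    have main : ∀ x y : M, dist y o ≤ dist x o → |dist x o - dist y o| < cGl c K * dist x y →
        ∃ n, c / 4 * dist x y ≤ ‖gl o f x n - gl o f y n‖ := by
      intro x y hxy hlt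
      set κ := cGl c K with hκ
      have hκ1 : κ ≤ 1 / 8 := min_le_left _ _
      have hκ2 : κ * K ≤ c / 4 := by
        have h1 : κ ≤ c / (4 * (K + 1)) := min_le_right _ _
        calc κ * K ≤ c / (4 * (K + 1)) * K := by gcongr
          _ ≤ c / (4 * (K + 1)) * (K + 1) := by gcongr; linarith
          _ = c / 4 := by field_simp
      have hκ0 : 0 < κ := cGl_pos hc hK
      have hd0 : 0 < dist x y := by
        by_contra h
        have h1 : dist x y = 0 := le_antisymm (not_lt.1 h) dist_nonneg
        rw [h1, mul_zero] at hlt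
        exact absurd hlt (not_lt.2 (abs_nonneg _))
      have hd2 : dist x y ≤ 2 * dist x o := by
        have := dist_triangle_right x y o
        linarith
      have hpos : 0 < dist x o := by linarith
      have hy34 : 3 / 4 * dist x o ≤ dist y o := by
        have h1 := (abs_lt.1 hlt).2
        have h2 : κ * dist x y ≤ 1 / 8 * (2 * dist x o) := by gcongr
        linarith
      set N := Int.log 2 (dist x o) with hN
      have h1 : (2 : ℝ) ^ N ≤ dist x o := by
        exact_mod_cast Int.zpow_log_le_self (b := 2) (by norm_num) hpos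
      have h2 : dist x o < (2 : ℝ) ^ (N + 1) := by
        exact_mod_cast Int.lt_zpow_succ_log_self (b := 2) (by norm_num) (dist x o)
      have hP := two_zpow_pos N
      have e1 : (2 : ℝ) ^ (N + 1) = 2 * 2 ^ N := by
        rw [zpow_add₀ (by norm_num)]; norm_num; ring
      have e2 : (2 : ℝ) ^ (N + 2) = 4 * 2 ^ N := by
        rw [zpow_add₀ (by norm_num)]; norm_num; ring
      have e3 : (2 : ℝ) ^ (N - 1) = 2 ^ N / 2 := by
        rw [zpow_sub₀ (by norm_num)]; norm_num
      -- the conclusion from a good index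
      have fin : ∀ m : ℤ, x ∈ Ann o m → y ∈ Ann o m → 1 / 2 ≤ hat (dist x o / 2 ^ m) →
          c / 4 * dist x y ≤ ‖gl o f x m - gl o f y m‖ := by
        intro m hx hy hm
        have hm0 := two_zpow_pos m
        have h3 : hat (dist x o / 2 ^ m) • (f m x - f m y) = (gl o f x m - gl o f y m) -
            (hat (dist x o / 2 ^ m) - hat (dist y o / 2 ^ m)) • f m y := by
          simp only [gl, smul_sub, sub_smul]; abel
        have h4 : ‖hat (dist x o / 2 ^ m) • (f m x - f m y)‖ ≤ ‖gl o f x m - gl o f y m‖ +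
            ‖(hat (dist x o / 2 ^ m) - hat (dist y o / 2 ^ m)) • f m y‖ := by
          rw [h3]; exact norm_sub_le _ _
        have h5 : ‖(hat (dist x o / 2 ^ m) - hat (dist y o / 2 ^ m)) • f m y‖ ≤
            κ * dist x y * K := by
          rw [norm_smul]
          calc ‖hat (dist x o / 2 ^ m) - hat (dist y o / 2 ^ m)‖ * ‖f m y‖
              ≤ (κ * dist x y / 2 ^ m) * (K * 2 ^ m) := by
                refine mul_le_mul ((hat_dist o x y m).trans ?_) (hbd m y hy) (norm_nonneg _)
                  (by positivity)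
                gcongr
            _ = κ * dist x y * K := by field_simp
        have h6 : 1 / 2 * (c * dist x y) ≤ ‖hat (dist x o / 2 ^ m) • (f m x - f m y)‖ := by
          rw [norm_smul, Real.norm_of_nonneg (hat_nonneg _)]
          refine mul_le_mul hm (hlow m x hx y hy) (by positivity) (hat_nonneg _)
        have h7 : κ * dist x y * K ≤ c / 4 * dist x y := by
          calc κ * dist x y * K = κ * K * dist x y := by ring
            _ ≤ c / 4 * dist x y := by gcongr
        linarith
      by_cases h3 : dist x o ≤ 3 / 2 * 2 ^ N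
      · refine ⟨N - 1, fin (N - 1) ⟨?_, ?_⟩ ⟨?_, ?_⟩ ?_⟩
        · rw [e3]; linarith
        · rw [show N - 1 + 2 = N + 1 by ring]; exact h2.le
        · rw [e3]; linarith
        · rw [show N - 1 + 2 = N + 1 by ring]; linarith
        · rw [e3]
          have h4 : dist x o / (2 ^ N / 2) ≤ 3 := by
            rw [div_le_iff₀ (by positivity)]; linarith
          have h5 : 2 ≤ dist x o / (2 ^ N / 2) := by
            rw [le_div_iff₀ (by positivity)]; linarith
          rcases le_hat h4 with h6 | h6 <;> linarith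
      · push Not at h3
        refine ⟨N, fin N ⟨h1, ?_⟩ ⟨?_, ?_⟩ ?_⟩
        · rw [e2]; linarith
        · linarith
        · rw [e2]; linarith
        · have h4 : dist x o / 2 ^ N ≤ 3 := by
            rw [div_le_iff₀ hP]; linarith
          have h5 : 3 / 2 ≤ dist x o / 2 ^ N := by
            rw [le_div_iff₀ hP]; linarith
          rcases le_hat h4 with h6 | h6 <;> linarith
    have hκ4 : cGl c K ≤ c / 4 := by
      have h1 : cGl c K ≤ c / (4 * (K + 1)) := min_le_right _ _
      refine h1.trans ?_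
      gcongr
      linarith
    by_cases hlt : |dist x o - dist y o| < cGl c K * dist x y
    · have h1 : ∃ n, c / 4 * dist x y ≤ ‖gl o f x n - gl o f y n‖ := by
        rcases le_total (dist y o) (dist x o) with h | h
        · exact main x y h hlt
        · obtain ⟨n, hn⟩ := main y x h (by rw [abs_sub_comm, dist_comm y x]; exact hlt)
          exact ⟨n, by rw [norm_sub_rev, dist_comm x y]; exact hn⟩
      obtain ⟨n, hn⟩ := h1
      calc cGl c K * dist x y ≤ c / 4 * dist x y := by gcongr
        _ ≤ _ := hn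
        _ ≤ _ := hcoord n
    · push Not at hlt
      exact hlt.trans hrad
  · -- upper bound
    rw [Prod.dist_eq]
    refine max_le ?_ ?_
    · obtain ⟨s, hs2, hs⟩ := gl_supp o f x
      obtain ⟨t, ht2, ht⟩ := gl_supp o f y
      rw [dist_eq_norm]
      refine (norm_le_supp (g x - g y) (s ∪ t) fun n hn => ?_).trans ?_
      · rw [Finset.notMem_union] at hn
        change gl o f x n - gl o f y n = 0
        rw [hs n hn.1, ht n hn.2, sub_zero]
      · have h1 : ∀ n ∈ s ∪ t, ‖(g x - g y) n‖ ≤ (L + K) * dist x y :=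
          fun n _ => gl_lip hL hK hup hbd x y n
        refine (Finset.sum_le_card_nsmul _ _ _ h1).trans ?_
        rw [nsmul_eq_mul]
        have h2 : ((s ∪ t).card : ℝ) ≤ 4 := by
          have := Finset.card_union_le s t
          exact_mod_cast (by omega : (s ∪ t).card ≤ 4)
        calc ((s ∪ t).card : ℝ) * ((L + K) * dist x y) ≤ 4 * ((L + K) * dist x y) := by gcongr
          _ ≤ (4 * (L + K) + 1) * dist x y := by nlinarith [dist_nonneg (x := x) (y := y)]
    · rw [Real.dist_eq]
      have h1 := abs_dist_sub_le x y o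
      have h2 : (1 : ℝ) ≤ 4 * (L + K) + 1 := by linarith
      calc |dist x o - dist y o| ≤ 1 * dist x y := by rw [one_mul]; exact h1
        _ ≤ _ := by gcongr

end

end Pool.Agent.Helper85.TS
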