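import Pool.Agent.Helper85.TS.Refl

/-! The Mazur map from `ℓ_1` to `ℓ_p` for `p` close to `1`. -/

namespace Pool.Agent.Helper85.TS

open ENNReal

/-- The signed power. -/
noncomputable def sp (a t : ℝ) : ℝ := if 0 ≤ t then t ^ a else -((-t) ^ a)

theorem sp_nonneg {a t : ℝ} (h : 0 ≤ t) : sp a t = t ^ a := if_pos h

theorem sp_neg {a t : ℝ} (h : t < 0) : sp a t = -((-t) ^ a) := if_neg (not_le.2 h)

theorem sp_nonpos {a t : ℝ} (ha : a ≠ 0) (h : t ≤ 0) : sp a t = -((-t) ^ a) := by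
  rcases h.eq_or_lt with h | h
  · rw [h, sp_nonneg le_rfl, neg_zero, Real.zero_rpow ha, neg_zero]
  · exact sp_neg h

theorem abs_sp {a : ℝ} (t : ℝ) : |sp a t| = |t| ^ a := by
  rcases le_or_gt 0 t with h | h
  · rw [sp_nonneg h, abs_of_nonneg h, abs_of_nonneg (Real.rpow_nonneg h a)]
  · rw [sp_neg h, abs_neg, abs_of_neg h, abs_of_nonneg (Real.rpow_nonneg (by linarith) a)]

/-- Hoelder continuity of the signed power. -/
theorem sp_sub_le {b : ℝ} (hb : 0 < b) (hb1 : b ≤ 1) (s t : ℝ) :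
    |sp b s - sp b t| ≤ 2 * |s - t| ^ b := by
  have pos : ∀ s t : ℝ, 0 ≤ t → t ≤ s → |s ^ b - t ^ b| ≤ 2 * |s - t| ^ b := by
    intro s t ht hts
    have h1 : t ^ b ≤ s ^ b := Real.rpow_le_rpow ht hts hb.le
    have h2 : s ^ b ≤ (s - t) ^ b + t ^ b := by
      have := Real.rpow_add_le_add_rpow (a := s - t) (b := t) (by linarith) ht hb.le hb1
      rw [sub_add_cancel] at this
      exact this
    rw [abs_of_nonneg (by linarith), abs_of_nonneg (by linarith)]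
    have h3 : 0 ≤ (s - t) ^ b := Real.rpow_nonneg (by linarith) b
    linarith
  have pos' : ∀ s t : ℝ, 0 ≤ s → 0 ≤ t → |s ^ b - t ^ b| ≤ 2 * |s - t| ^ b := by
    intro s t hs ht
    rcases le_total t s with h | h
    · exact pos s t ht h
    · rw [abs_sub_comm, abs_sub_comm s t]; exact pos t s hs h
  have mix : ∀ s t : ℝ, 0 ≤ s → t ≤ 0 → |s ^ b + (-t) ^ b| ≤ 2 * |s - t| ^ b := by
    intro s t hs ht
    have h1 : s ^ b ≤ (s - t) ^ b := Real.rpow_le_rpow hs (by linarith) hb.le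
    have h2 : (-t) ^ b ≤ (s - t) ^ b := Real.rpow_le_rpow (by linarith) (by linarith) hb.le
    have h3 : 0 ≤ s ^ b := Real.rpow_nonneg hs b
    have h4 : 0 ≤ (-t) ^ b := Real.rpow_nonneg (by linarith) b
    rw [abs_of_nonneg (by linarith), abs_of_nonneg (by linarith : 0 ≤ s - t)]
    linarith
  rcases le_total 0 s with hs | hs <;> rcases le_total 0 t with ht | ht
  · rw [sp_nonneg hs, sp_nonneg ht]; exact pos' s t hs ht
  · rw [sp_nonneg hs, sp_nonpos hb.ne' ht, sub_neg_eq_add]; exact mix s t hs ht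
  · rw [sp_nonpos hb.ne' hs, sp_nonneg ht]
    have := mix t s ht hs
    rw [abs_sub_comm, sub_neg_eq_add, abs_sub_comm s t]
    exact this
  · rw [sp_nonpos hb.ne' hs, sp_nonpos hb.ne' ht]
    have := pos' (-s) (-t) (by linarith) (by linarith)
    rw [show -(-s) ^ b - -(-t) ^ b = -((-s) ^ b - (-t) ^ b) by ring, abs_neg,
      show s - t = -(-s - -t) by ring, abs_neg]
    exact this

/-- Local Lipschitz estimate for the inverse. -/
theorem le_sp_sub {p : ℝ} (hp : 1 ≤ p) (s t : ℝ) :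
    |s - t| ≤ p * max |sp (1 / p) s| |sp (1 / p) t| ^ (p - 1) *
      |sp (1 / p) s - sp (1 / p) t| := by
  have hp0 : 0 < p := by linarith
  have inv : ∀ s : ℝ, 0 ≤ s → (s ^ (1 / p)) ^ p = s := fun s hs => by
    rw [← Real.rpow_mul hs, one_div_mul_cancel hp0.ne', Real.rpow_one]
  -- the positive case
  have A : ∀ u v : ℝ, 0 ≤ v → v ≤ u → u ^ p - v ^ p ≤ p * u ^ (p - 1) * (u - v) := by
    intro u v hv hvu
    rcases (hv.trans hvu).eq_or_lt with h0 | h0
    · have h1 : v = 0 := by linarith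
      rw [← h0, h1, sub_self, sub_self, mul_zero]
    · have h1 := one_add_mul_self_le_rpow_one_add (s := v / u - 1)
        (by have : 0 ≤ v / u := by positivity
            linarith) hp
      rw [add_sub_cancel, Real.div_rpow hv h0.le] at h1
      have h2 : 0 < u ^ p := Real.rpow_pos_of_pos h0 p
      have h3 : (1 + p * (v / u - 1)) * u ^ p ≤ v ^ p := by
        rwa [le_div_iff₀ h2] at h1
      have h4 : u ^ p = u ^ (p - 1) * u := by
        nth_rw 3 [← Real.rpow_one u]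
        rw [← Real.rpow_add h0, sub_add_cancel]
      have h5 : (1 + p * (v / u - 1)) * u ^ p = u ^ p + p * u ^ (p - 1) * (v - u) := by
        rw [h4]; field_simp
      linarith
  have A' : ∀ u v : ℝ, 0 ≤ u → 0 ≤ v → |u ^ p - v ^ p| ≤ p * max u v ^ (p - 1) * |u - v| := by
    intro u v hu hv
    rcases le_total v u with h | h
    · rw [max_eq_left h, abs_of_nonneg (by linarith : 0 ≤ u - v),
        abs_of_nonneg (by have := Real.rpow_le_rpow hv h hp0.le; linarith)]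
      exact A u v hv h
    · rw [max_eq_right h, abs_sub_comm, abs_sub_comm u v,
        abs_of_nonneg (by linarith : 0 ≤ v - u),
        abs_of_nonneg (by have := Real.rpow_le_rpow hu h hp0.le; linarith)]
      exact A v u hu h
  have B : ∀ u v : ℝ, 0 ≤ u → 0 ≤ v → u ^ p + v ^ p ≤ p * max u v ^ (p - 1) * (u + v) := by
    intro u v hu hv
    have h1 : ∀ w : ℝ, 0 ≤ w → w ≤ max u v → w ^ p ≤ max u v ^ (p - 1) * w := by
      intro w hw hwm
      rcases hw.eq_or_lt with h0 | h0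
      · rw [← h0, Real.zero_rpow hp0.ne', mul_zero]
      · have h4 : w ^ p = w ^ (p - 1) * w := by
          nth_rw 3 [← Real.rpow_one w]
          rw [← Real.rpow_add h0, sub_add_cancel]
        rw [h4]
        gcongr
    have h2 := h1 u hu (le_max_left _ _)
    have h3 := h1 v hv (le_max_right _ _)
    have h5 : 0 ≤ max u v ^ (p - 1) * (u + v) := by
      have : 0 ≤ max u v := le_max_of_le_left hu
      positivity
    calc u ^ p + v ^ p ≤ max u v ^ (p - 1) * (u + v) := by rw [mul_add]; linarith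
      _ = 1 * (max u v ^ (p - 1) * (u + v)) := (one_mul _).symm
      _ ≤ p * (max u v ^ (p - 1) * (u + v)) := by gcongr
      _ = _ := by ring
  have hb : (1 / p) ≠ 0 := by positivity
  rw [abs_sp, abs_sp]
  rcases le_total 0 s with hs | hs <;> rcases le_total 0 t with ht | ht
  · rw [sp_nonneg hs, sp_nonneg ht, abs_of_nonneg hs, abs_of_nonneg ht]
    have := A' (s ^ (1 / p)) (t ^ (1 / p)) (Real.rpow_nonneg hs _) (Real.rpow_nonneg ht _)
    rwa [inv s hs, inv t ht] at this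
  · rw [sp_nonneg hs, sp_nonpos hb ht, abs_of_nonneg hs, abs_of_nonpos ht, sub_neg_eq_add]
    have h1 : 0 ≤ -t := by linarith
    have := B (s ^ (1 / p)) ((-t) ^ (1 / p)) (Real.rpow_nonneg hs _) (Real.rpow_nonneg h1 _)
    rw [inv s hs, inv (-t) h1] at this
    rw [abs_of_nonneg (by linarith : 0 ≤ s - t), abs_of_nonneg (a := s ^ (1 / p) + _)
      (add_nonneg (Real.rpow_nonneg hs _) (Real.rpow_nonneg h1 _))]
    linarith
  · rw [sp_nonpos hb hs, sp_nonneg ht, abs_of_nonpos hs, abs_of_nonneg ht]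
    have h1 : 0 ≤ -s := by linarith
    have := B ((-s) ^ (1 / p)) (t ^ (1 / p)) (Real.rpow_nonneg h1 _) (Real.rpow_nonneg ht _)
    rw [inv t ht, inv (-s) h1] at this
    rw [show s - t = -(-s + t) by ring, abs_neg, abs_of_nonneg (by linarith : 0 ≤ -s + t),
      show -(-s) ^ (1 / p) - t ^ (1 / p) = -((-s) ^ (1 / p) + t ^ (1 / p)) by ring, abs_neg,
      abs_of_nonneg (a := (-s) ^ (1 / p) + _)
        (add_nonneg (Real.rpow_nonneg h1 _) (Real.rpow_nonneg ht _))]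
    exact this
  · rw [sp_nonpos hb hs, sp_nonpos hb ht, abs_of_nonpos hs, abs_of_nonpos ht]
    have h1 : 0 ≤ -s := by linarith
    have h2 : 0 ≤ -t := by linarith
    have := A' ((-s) ^ (1 / p)) ((-t) ^ (1 / p)) (Real.rpow_nonneg h1 _) (Real.rpow_nonneg h2 _)
    rw [inv (-s) h1, inv (-t) h2] at this
    rw [show s - t = -(-s - -t) by ring, abs_neg,
      show -(-s) ^ (1 / p) - -(-t) ^ (1 / p) = -((-s) ^ (1 / p) - (-t) ^ (1 / p)) by ring,
      abs_neg]
    exact this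

/-- The space `ℓ_1`. -/
abbrev L1 : Type := lp (fun _ : ℕ => ℝ) 1

theorem l1_norm (x : L1) : ‖x‖ = ∑' i, ‖x i‖ := by
  have := lp.norm_rpow_eq_tsum (p := 1) (by norm_num) x
  simpa using this

theorem l1_sum_le (x : L1) (s : Finset ℕ) : ∑ i ∈ s, ‖x i‖ ≤ ‖x‖ := by
  have := lp.sum_rpow_le_norm_rpow (p := 1) (by norm_num) x s
  simpa using this

section

variable {P : ℝ≥0∞} {Q : ℝ}

theorem mz_mem (hPQ : P.toReal.HolderConjugate Q) (x : L1) :
    Memℓp (fun i => sp (1 / P.toReal) (x i)) P := by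
  refine memℓp_gen' (C := ‖x‖) fun s => ?_
  refine le_trans (le_of_eq ?_) (l1_sum_le x s)
  refine Finset.sum_congr rfl fun i _ => ?_
  rw [Real.norm_eq_abs, abs_sp, ← Real.rpow_mul (abs_nonneg _),
    one_div_mul_cancel hPQ.ne_zero, Real.rpow_one, Real.norm_eq_abs]

/-- The Mazur map. -/
noncomputable def mz (hPQ : P.toReal.HolderConjugate Q) (x : L1) : lp (fun _ : ℕ => ℝ) P :=
  ⟨fun i => sp (1 / P.toReal) (x i), mz_mem hPQ x⟩

theorem mz_apply (hPQ : P.toReal.HolderConjugate Q) (x : L1) (i : ℕ) :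
    mz hPQ x i = sp (1 / P.toReal) (x i) := rfl

theorem mz_pow (hPQ : P.toReal.HolderConjugate Q) (x : L1) (i : ℕ) :
    ‖mz hPQ x i‖ ^ P.toReal = ‖x i‖ := by
  rw [mz_apply, Real.norm_eq_abs, abs_sp, ← Real.rpow_mul (abs_nonneg _),
    one_div_mul_cancel hPQ.ne_zero, Real.rpow_one, Real.norm_eq_abs]

theorem norm_mz_le [Fact (1 ≤ P)] (hPQ : P.toReal.HolderConjugate Q) (x : L1) :
    ‖mz hPQ x‖ ≤ ‖x‖ ^ (1 / P.toReal) := by
  refine lp.norm_le_of_forall_sum_le hPQ.pos (by positivity) fun s => ?_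
  rw [← Real.rpow_mul (norm_nonneg _), one_div_mul_cancel hPQ.ne_zero, Real.rpow_one]
  simp only [mz_pow]
  exact l1_sum_le x s

theorem norm_mz_sub_le [Fact (1 ≤ P)] (hPQ : P.toReal.HolderConjugate Q) (hP2 : P.toReal ≤ 2)
    (x y : L1) : ‖mz hPQ x - mz hPQ y‖ ≤ (4 * ‖x - y‖) ^ (1 / P.toReal) := by
  refine lp.norm_le_of_forall_sum_le hPQ.pos (by positivity) fun s => ?_
  rw [← Real.rpow_mul (by positivity), one_div_mul_cancel hPQ.ne_zero, Real.rpow_one]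
  have h1 : ∀ i, ‖(mz hPQ x - mz hPQ y) i‖ ^ P.toReal ≤ 4 * ‖(x - y) i‖ := by
    intro i
    have h2 : ‖(mz hPQ x - mz hPQ y) i‖ ≤ 2 * ‖(x - y) i‖ ^ (1 / P.toReal) := by
      change ‖sp (1 / P.toReal) (x i) - sp (1 / P.toReal) (y i)‖ ≤ 2 * ‖x i - y i‖ ^ _
      rw [Real.norm_eq_abs, Real.norm_eq_abs]
      have := hPQ.lt
      exact sp_sub_le (by have := hPQ.pos; positivity)
        (by rw [div_le_one hPQ.pos]; exact this.le) _ _
    calc ‖(mz hPQ x - mz hPQ y) i‖ ^ P.toReal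
        ≤ (2 * ‖(x - y) i‖ ^ (1 / P.toReal)) ^ P.toReal :=
          Real.rpow_le_rpow (norm_nonneg _) h2 hPQ.nonneg
      _ = 2 ^ P.toReal * ‖(x - y) i‖ := by
          rw [Real.mul_rpow (by norm_num) (by positivity), ← Real.rpow_mul (norm_nonneg _),
            one_div_mul_cancel hPQ.ne_zero, Real.rpow_one]
      _ ≤ 2 ^ (2 : ℝ) * ‖(x - y) i‖ := by
          gcongr
          norm_num
      _ = 4 * ‖(x - y) i‖ := by norm_num
  calc ∑ i ∈ s, ‖(mz hPQ x - mz hPQ y) i‖ ^ P.toReal ≤ ∑ i ∈ s, 4 * ‖(x - y) i‖ :=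
        Finset.sum_le_sum fun i _ => h1 i
    _ = 4 * ∑ i ∈ s, ‖(x - y) i‖ := by rw [Finset.mul_sum]
    _ ≤ 4 * ‖x - y‖ := by gcongr; exact l1_sum_le _ s

theorem le_norm_mz_sub [Fact (1 ≤ P)] (hPQ : P.toReal.HolderConjugate Q) (x y : L1) :
    ‖x - y‖ ≤ P.toReal * ‖mz hPQ x - mz hPQ y‖ * (‖x‖ + ‖y‖) ^ (1 / Q) := by
  have hP1 : 1 ≤ P.toReal := hPQ.lt.le
  have hP0 : 0 < P.toReal := hPQ.pos
  refine lp.norm_le_of_forall_sum_le (p := 1) (by norm_num) (by positivity) fun s => ?_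
  simp only [ENNReal.toReal_one, Real.rpow_one]
  set u := mz hPQ x with hu
  set v := mz hPQ y with hv
  have h1 : ∀ i, ‖(x - y) i‖ ≤ P.toReal * (‖(u - v) i‖ * max ‖u i‖ ‖v i‖ ^ (P.toReal - 1)) := by
    intro i
    have := le_sp_sub hP1 (x i) (y i)
    change |x i - y i| ≤ _
    refine this.trans (le_of_eq ?_)
    change _ = P.toReal * (|sp (1 / P.toReal) (x i) - sp (1 / P.toReal) (y i)| *
      max |sp (1 / P.toReal) (x i)| |sp (1 / P.toReal) (y i)| ^ (P.toReal - 1))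
    ring
  have h2 : (∑ i ∈ s, ‖(u - v) i‖ ^ P.toReal) ^ (1 / P.toReal) ≤ ‖u - v‖ := by
    calc (∑ i ∈ s, ‖(u - v) i‖ ^ P.toReal) ^ (1 / P.toReal)
        ≤ (‖u - v‖ ^ P.toReal) ^ (1 / P.toReal) :=
          Real.rpow_le_rpow (Finset.sum_nonneg fun i _ => by positivity)
            (lp.sum_rpow_le_norm_rpow hP0 (u - v) s) (by positivity)
      _ = ‖u - v‖ := by
          rw [← Real.rpow_mul (norm_nonneg _), mul_one_div_cancel hP0.ne', Real.rpow_one]
  have h3 : ∑ i ∈ s, (max ‖u i‖ ‖v i‖ ^ (P.toReal - 1)) ^ Q ≤ ‖x‖ + ‖y‖ := by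
    calc ∑ i ∈ s, (max ‖u i‖ ‖v i‖ ^ (P.toReal - 1)) ^ Q
        ≤ ∑ i ∈ s, (‖x i‖ + ‖y i‖) := by
          refine Finset.sum_le_sum fun i _ => ?_
          rw [rpow_conj hPQ (le_max_of_le_left (norm_nonneg _))]
          rcases le_total ‖u i‖ ‖v i‖ with h | h
          · rw [max_eq_right h, hv, mz_pow]
            linarith [norm_nonneg (x i)]
          · rw [max_eq_left h, hu, mz_pow]
            linarith [norm_nonneg (y i)]
      _ = ∑ i ∈ s, ‖x i‖ + ∑ i ∈ s, ‖y i‖ := Finset.sum_add_distrib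
      _ ≤ ‖x‖ + ‖y‖ := add_le_add (l1_sum_le x s) (l1_sum_le y s)
  have hQ0 : 0 < Q := hPQ.symm.pos
  calc ∑ i ∈ s, ‖(x - y) i‖
      ≤ ∑ i ∈ s, P.toReal * (‖(u - v) i‖ * max ‖u i‖ ‖v i‖ ^ (P.toReal - 1)) :=
        Finset.sum_le_sum fun i _ => h1 i
    _ = P.toReal * ∑ i ∈ s, ‖(u - v) i‖ * max ‖u i‖ ‖v i‖ ^ (P.toReal - 1) := by
        rw [Finset.mul_sum]
    _ ≤ P.toReal * ((∑ i ∈ s, ‖(u - v) i‖ ^ P.toReal) ^ (1 / P.toReal) *
          (∑ i ∈ s, (max ‖u i‖ ‖v i‖ ^ (P.toReal - 1)) ^ Q) ^ (1 / Q)) := by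
        gcongr
        exact hoelder_fin hPQ s (fun i => ‖(u - v) i‖)
          (fun i => max ‖u i‖ ‖v i‖ ^ (P.toReal - 1)) (fun i => norm_nonneg _)
          (fun i => Real.rpow_nonneg (le_max_of_le_left (norm_nonneg _)) _)
    _ ≤ P.toReal * (‖u - v‖ * (‖x‖ + ‖y‖) ^ (1 / Q)) := by
        have h4 : 0 ≤ ∑ i ∈ s, (max ‖u i‖ ‖v i‖ ^ (P.toReal - 1)) ^ Q :=
          Finset.sum_nonneg fun i _ => Real.rpow_nonneg
            (Real.rpow_nonneg (le_max_of_le_left (norm_nonneg _)) _) _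
        refine mul_le_mul_of_nonneg_left ?_ hP0.le
        refine mul_le_mul h2 (Real.rpow_le_rpow h4 h3 (by positivity))
          (Real.rpow_nonneg h4 _) (norm_nonneg _)
    _ = _ := by ring

end

/-- The exponents. -/
noncomputable def pk (k : ℕ) : ℝ≥0∞ := ENNReal.ofReal (1 + 1 / ((k : ℝ) + 1))

theorem pk_toReal (k : ℕ) : (pk k).toReal = 1 + 1 / ((k : ℝ) + 1) :=
  ENNReal.toReal_ofReal (by positivity)

theorem pk_conj (k : ℕ) : (pk k).toReal.HolderConjugate ((k : ℝ) + 2) := by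
  rw [pk_toReal, Real.holderConjugate_iff]
  constructor
  · have : (0 : ℝ) < 1 / ((k : ℝ) + 1) := by positivity
    linarith
  · field_simp
    ring

theorem pk_le_two (k : ℕ) : (pk k).toReal ≤ 2 := by
  rw [pk_toReal]
  have : 1 / ((k : ℝ) + 1) ≤ 1 := by
    rw [div_le_one (by positivity)]
    linarith [(Nat.cast_nonneg k : (0 : ℝ) ≤ k)]
  linarith

instance pk_fact (k : ℕ) : Fact (1 ≤ pk k) := ⟨by
  rw [pk, ← ENNReal.ofReal_one]
  refine ENNReal.ofReal_le_ofReal ?_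
  have : (0 : ℝ) ≤ 1 / ((k : ℝ) + 1) := by positivity
  linarith⟩

theorem pk_top (k : ℕ) : pk k ≠ ⊤ := ENNReal.ofReal_ne_top

/-- For `p` close to `1` the Mazur map has bounded distortion on the pairs of distance at least
`θ` in the ball of radius `R`. -/
theorem mazur (R θ : ℝ) (hθ : 0 < θ) : ∃ k : ℕ,
    (∀ x y : L1, ‖x‖ ≤ R → ‖y‖ ≤ R → θ ≤ ‖x - y‖ →
      1 / 4 * ‖x - y‖ ≤ ‖mz (pk_conj k) x - mz (pk_conj k) y‖ ∧
      ‖mz (pk_conj k) x - mz (pk_conj k) y‖ ≤ 8 * ‖x - y‖) ∧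
    (∀ x : L1, θ ≤ ‖x‖ → ‖mz (pk_conj k) x‖ ≤ 2 * ‖x‖) := by
  obtain ⟨k, hk⟩ := pow_unbounded_of_one_lt (max (2 * R) θ⁻¹) (by norm_num : (1 : ℝ) < 2)
  have hk1 : 2 * R ≤ 2 ^ (k + 2) := by
    have h1 : (2 : ℝ) ^ k ≤ 2 ^ (k + 2) := pow_le_pow_right₀ (by norm_num) (by omega)
    linarith [le_max_left (2 * R) θ⁻¹]
  have hk2 : θ⁻¹ ≤ 2 ^ (k + 2) := by
    have h1 : (2 : ℝ) ^ k ≤ 2 ^ (k + 2) := pow_le_pow_right₀ (by norm_num) (by omega)
    linarith [le_max_right (2 * R) θ⁻¹]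
  have hroot : ∀ t : ℝ, 0 ≤ t → t ≤ 2 ^ (k + 2) → t ^ (1 / ((k : ℝ) + 2)) ≤ 2 := by
    intro t ht h
    calc t ^ (1 / ((k : ℝ) + 2)) ≤ ((2 : ℝ) ^ (k + 2)) ^ (1 / ((k : ℝ) + 2)) :=
          Real.rpow_le_rpow ht h (by positivity)
      _ = 2 := by
          rw [← Real.rpow_natCast, ← Real.rpow_mul (by norm_num)]
          have : (((k + 2 : ℕ) : ℝ)) * (1 / ((k : ℝ) + 2)) = 1 := by
            push_cast
            field_simp
          rw [this, Real.rpow_one]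
  have hconj : 1 / (pk k).toReal = 1 - 1 / ((k : ℝ) + 2) := by
    rw [pk_toReal]
    field_simp
    ring
  -- powers of numbers that are at least `θ`
  have hpow : ∀ t : ℝ, θ ≤ t → t ^ (1 / (pk k).toReal) ≤ 2 * t := by
    intro t ht
    have ht0 : 0 < t := lt_of_lt_of_le hθ ht
    rw [hconj, Real.rpow_sub ht0, Real.rpow_one, div_eq_mul_inv, ← Real.inv_rpow ht0.le, mul_comm]
    gcongr
    refine hroot _ (by positivity) (le_trans ?_ hk2)
    gcongr
  refine ⟨k, fun x y hx hy hxy => ⟨?_, ?_⟩, fun x hx => ?_⟩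
  · have h1 := le_norm_mz_sub (pk_conj k) x y
    have h2 : (‖x‖ + ‖y‖) ^ (1 / ((k : ℝ) + 2)) ≤ 2 :=
      hroot _ (by positivity) (by linarith)
    have h3 : ‖x - y‖ ≤ 2 * ‖mz (pk_conj k) x - mz (pk_conj k) y‖ * 2 := by
      refine h1.trans ?_
      gcongr
      exact pk_le_two k
    linarith
  · refine (norm_mz_sub_le (pk_conj k) (pk_le_two k) x y).trans ?_
    refine (hpow (4 * ‖x - y‖) (by linarith [norm_nonneg (x - y)])).trans ?_
    linarith
  · exact (norm_mz_le (pk_conj k) x).trans (hpow _ hx)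

end Pool.Agent.Helper85.TS
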