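import Pool.Agent.Helper85.TS.Glue
import Pool.Agent.Helper85.TS.Mazur

/-! The space `ℓ_1` is separable and not reflexive; metric spaces with uniformly discrete bounded
subsets which embed in `ℓ_1` embed in one reflexive space. -/

namespace Pool.Agent.Helper85.TS

open ENNReal Filter Topology

theorem l1_sep : TopologicalSpace.SeparableSpace L1 := sep_lp (by norm_num)

/-- `ℓ_1` is not reflexive. -/
theorem l1_not_rfx : ¬ Rfx L1 := by
  intro hR
  let e : ℕ → L1 := fun n => lp.single 1 n (1 : ℝ)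
  have he : ∀ n, ‖e n‖ = 1 := fun n => by
    simp only [e, lp.norm_single (p := 1) (by norm_num), norm_one]
  have hb : ∀ (f : StrongDual ℝ L1) (n : ℕ), |f (e n)| ≤ ‖f‖ := by
    intro f n
    have := f.le_opNorm (e n)
    rw [he, mul_one] at this
    exact this
  have hex : ∀ f : StrongDual ℝ L1, ∃ a : ℝ, |a| ≤ ‖f‖ ∧
      Tendsto (fun n => f (e n)) (hyperfilter ℕ : Filter ℕ) (𝓝 a) := by
    intro f
    have h1 : (Set.Icc (-‖f‖) ‖f‖) ∈ (Ultrafilter.map (fun n => f (e n)) (hyperfilter ℕ)) := by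
      rw [Ultrafilter.mem_map]
      refine Filter.univ_mem' fun n => ?_
      exact abs_le.1 (hb f n)
    obtain ⟨a, ha1, ha2⟩ := isCompact_Icc.ultrafilter_le_nhds _ (le_principal_iff.2 h1)
    exact ⟨a, abs_le.2 ha1, ha2⟩
  choose Lm hL1 hL2 using hex
  let Φ : StrongDual ℝ (StrongDual ℝ L1) := LinearMap.mkContinuous
    { toFun := Lm
      map_add' := fun f g => tendsto_nhds_unique (hL2 (f + g)) ((hL2 f).add (hL2 g))
      map_smul' := fun c f => tendsto_nhds_unique (hL2 (c • f)) ((hL2 f).const_mul c) } 1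
    (fun f => by rw [one_mul]; exact hL1 f)
  obtain ⟨x, hx⟩ := hR Φ
  have hx' : ∀ f : StrongDual ℝ L1, f x = Lm f := fun f => DFunLike.congr_fun hx f
  have h0 : x = 0 := by
    refine lp.ext ?_
    funext k
    have h1 := hx' (lp.evalCLM ℝ (fun _ : ℕ => ℝ) 1 k)
    have h2 : Tendsto (fun n => lp.evalCLM ℝ (fun _ : ℕ => ℝ) 1 k (e n))
        (hyperfilter ℕ : Filter ℕ) (𝓝 0) := by
      refine tendsto_const_nhds.congr' ?_
      have h3 : ∀ᶠ n in (hyperfilter ℕ : Filter ℕ), n ≠ k := by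
        refine hyperfilter_le_cofinite ?_
        exact (Set.finite_singleton k).compl_mem_cofinite
      filter_upwards [h3] with n hn
      change (0 : ℝ) = (lp.single 1 n (1 : ℝ) : L1) k
      rw [lp.single_apply_ne (E := fun _ : ℕ => ℝ) 1 n (1 : ℝ) hn.symm]
    rw [← tendsto_nhds_unique h2 (hL2 _)] at h1
    exact h1
  have h4 := hx' (lp.tsumCLM ℝ ℕ ℝ)
  have h5 : Tendsto (fun n => lp.tsumCLM ℝ ℕ ℝ (e n)) (hyperfilter ℕ : Filter ℕ) (𝓝 1) := by
    refine tendsto_const_nhds.congr fun n => ?_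
    change (1 : ℝ) = ∑' i, (lp.single 1 n (1 : ℝ) : L1) i
    rw [tsum_eq_single n]
    · rw [lp.single_apply_self]
    · intro i hi
      rw [lp.single_apply_ne (E := fun _ : ℕ => ℝ) 1 n (1 : ℝ) hi]
  rw [← tendsto_nhds_unique h5 (hL2 _), h0, map_zero] at h4
  norm_num at h4

/-- All bounded subsets are uniformly discrete. -/
def BUD (M : Type) [MetricSpace M] : Prop :=
  ∀ (o : M) (R : ℝ), ∃ θ : ℝ, 0 < θ ∧ ∀ x y : M, dist x o ≤ R → dist y o ≤ R → x ≠ y →
    θ ≤ dist x y

/-- The sum of the spaces `ℓ_p`, `p = 1 + 1 / (k + 1)`. -/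
abbrev EA : Type := lp (fun k : ℕ => lp (fun _ : ℕ => ℝ) (pk k)) 2

/-- The host space for the spaces with uniformly discrete bounded subsets. -/
abbrev ZA : Type := lp (fun _ : ℤ => EA) 2 × ℝ

theorem two_conj : (2 : ℝ≥0∞).toReal.HolderConjugate 2 := by
  rw [Real.holderConjugate_iff]
  norm_num

theorem rfx_EA : Rfx EA :=
  rfx_lp two_conj (by norm_num) fun k => rfx_lp (pk_conj k) (pk_top k) fun _ => rfx_fin ℝ

theorem rfx_ZA : Rfx ZA := rfx_prod (rfx_lp two_conj (by norm_num) fun _ => rfx_EA) (rfx_fin ℝ)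

theorem sep_EA : TopologicalSpace.SeparableSpace EA := by
  have h1 : ∀ k, TopologicalSpace.SeparableSpace (lp (fun _ : ℕ => ℝ) (pk k)) :=
    fun k => sep_lp (pk_top k)
  exact sep_lp (by norm_num)

theorem sep_ZA : TopologicalSpace.SeparableSpace ZA := by
  have h1 := sep_EA
  have h2 : TopologicalSpace.SeparableSpace (lp (fun _ : ℤ => EA) 2) := sep_lp (by norm_num)
  infer_instance

/-- Metric spaces with uniformly discrete bounded subsets which embed in `ℓ_1` with distortion `C`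
embed in `ZA` with distortion depending only on `C`. -/
theorem embA (M : Type) [MetricSpace M] (hM : BUD M) (C : ℝ) (a : M → L1) (r : ℝ) (hr : 0 < r)
    (ha : ∀ x y, r * dist x y ≤ dist (a x) (a y) ∧ dist (a x) (a y) ≤ C * r * dist x y) :
    ∃ h : M → ZA, ∀ x y, cGl (1 / 4) (8 * |C|) * dist x y ≤ dist (h x) (h y) ∧
      dist (h x) (h y) ≤ (4 * (8 * |C| + 8 * |C|) + 1) * dist x y := by
  rcases isEmpty_or_nonempty M with hE | ⟨⟨o⟩⟩
  · exact ⟨fun _ => 0, fun x => (hE.false x).elim⟩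
  have ha1 : ∀ x y, r * dist x y ≤ ‖(a x - a o) - (a y - a o)‖ := fun x y => by
    rw [sub_sub_sub_cancel_right, ← dist_eq_norm]; exact (ha x y).1
  have ha2 : ∀ x y, ‖(a x - a o) - (a y - a o)‖ ≤ |C| * r * dist x y := fun x y => by
    rw [sub_sub_sub_cancel_right, ← dist_eq_norm]
    refine (ha x y).2.trans ?_
    gcongr
    exact le_abs_self C
  have ha3 : ∀ x, r * dist x o ≤ ‖a x - a o‖ := fun x => by
    have := ha1 x o
    rwa [sub_self (a o), sub_zero] at this
  have ha4 : ∀ x, ‖a x - a o‖ ≤ |C| * r * dist x o := fun x => by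
    have := ha2 x o
    rwa [sub_self (a o), sub_zero] at this
  have hk : ∀ n : ℤ, ∃ k : ℕ,
      (∀ x ∈ Ann o n, ∀ y ∈ Ann o n, x ≠ y →
        1 / 4 * ‖(a x - a o) - (a y - a o)‖ ≤
          ‖mz (pk_conj k) (a x - a o) - mz (pk_conj k) (a y - a o)‖ ∧
        ‖mz (pk_conj k) (a x - a o) - mz (pk_conj k) (a y - a o)‖ ≤
          8 * ‖(a x - a o) - (a y - a o)‖) ∧
      (∀ x ∈ Ann o n, ‖mz (pk_conj k) (a x - a o)‖ ≤ 2 * ‖a x - a o‖) := by
    intro n
    obtain ⟨θ, hθ, hθ'⟩ := hM o (2 ^ (n + 2))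
    have h2 := two_zpow_pos n
    obtain ⟨k, hk1, hk2⟩ := mazur (|C| * r * 2 ^ (n + 2)) (min (r * θ) (r * 2 ^ n))
      (by positivity)
    have hR : ∀ x ∈ Ann o n, ‖a x - a o‖ ≤ |C| * r * 2 ^ (n + 2) := fun x hx =>
      (ha4 x).trans (by have := hx.2; gcongr)
    refine ⟨k, fun x hx y hy hxy => hk1 _ _ (hR x hx) (hR y hy) ?_, fun x hx => hk2 _ ?_⟩
    · refine (min_le_left _ _).trans (le_trans ?_ (ha1 x y))
      have := hθ' x y hx.2 hy.2 hxy
      gcongr
    · refine (min_le_right _ _).trans (le_trans ?_ (ha3 x))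
      have := hx.1
      gcongr
  choose k hk1 hk2 using hk
  let f : ℤ → M → EA := fun n x => r⁻¹ • lp.single 2 (k n) (mz (pk_conj (k n)) (a x - a o))
  have hf : ∀ n x y, ‖f n x - f n y‖ =
      r⁻¹ * ‖mz (pk_conj (k n)) (a x - a o) - mz (pk_conj (k n)) (a y - a o)‖ := by
    intro n x y
    simp only [f]
    rw [← smul_sub, norm_smul, Real.norm_of_nonneg (by positivity), ← lp.single_sub,
      lp.norm_single (by norm_num)]
  have hf0 : ∀ n x, ‖f n x‖ = r⁻¹ * ‖mz (pk_conj (k n)) (a x - a o)‖ := by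
    intro n x
    simp only [f]
    rw [norm_smul, Real.norm_of_nonneg (by positivity), lp.norm_single (by norm_num)]
  refine glue o f (by norm_num) (by positivity) (by positivity) ?_ ?_ ?_
  · intro n x hx y hy
    rcases eq_or_ne x y with rfl | hxy
    · rw [dist_self, mul_zero]; exact norm_nonneg _
    · rw [hf]
      calc 1 / 4 * dist x y = r⁻¹ * (1 / 4 * (r * dist x y)) := by field_simp
        _ ≤ r⁻¹ * (1 / 4 * ‖(a x - a o) - (a y - a o)‖) := by
            have := ha1 x y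
            gcongr
        _ ≤ _ := by
            have := (hk1 n x hx y hy hxy).1
            gcongr
  · intro n x hx y hy
    rcases eq_or_ne x y with rfl | hxy
    · rw [sub_self, norm_zero]; positivity
    · rw [hf]
      calc r⁻¹ * ‖mz (pk_conj (k n)) (a x - a o) - mz (pk_conj (k n)) (a y - a o)‖
          ≤ r⁻¹ * (8 * ‖(a x - a o) - (a y - a o)‖) := by
            have := (hk1 n x hx y hy hxy).2
            gcongr
        _ ≤ r⁻¹ * (8 * (|C| * r * dist x y)) := by
            have := ha2 x y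
            gcongr
        _ = 8 * |C| * dist x y := by field_simp
  · intro n x hx
    rw [hf0]
    calc r⁻¹ * ‖mz (pk_conj (k n)) (a x - a o)‖ ≤ r⁻¹ * (2 * ‖a x - a o‖) := by
          have := hk2 n x hx
          gcongr
      _ ≤ r⁻¹ * (2 * (|C| * r * dist x o)) := by
          have := ha4 x
          gcongr
      _ ≤ r⁻¹ * (2 * (|C| * r * 2 ^ (n + 2))) := by
          have := hx.2
          gcongr
      _ = 8 * |C| * 2 ^ n := by
          rw [zpow_add₀ (by norm_num)]
          field_simp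
          norm_num
          ring

end Pool.Agent.Helper85.TS
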