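import Pool.Agent.Helper85.TS.EmbA

/-! Compact sets with many locally flat functions embed in the sum of the spaces `ℓ_∞^n`. -/

namespace Pool.Agent.Helper85.TS

open ENNReal Filter Topology

/-- There are many locally flat functions. -/
def LF (c : ℝ) (M : Type) [MetricSpace M] : Prop :=
  ∀ x y : M, x ≠ y → ∀ ε : ℝ, 0 < ε → ∃ f : M → ℝ, (∀ u v, |f u - f v| ≤ dist u v) ∧
    c * dist x y ≤ f y - f x ∧ ∃ η : ℝ, 0 < η ∧ ∀ u v, dist u v ≤ η → |f u - f v| ≤ ε * dist u v

section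

variable {M : Type} [MetricSpace M]

theorem clamp_lip (r s t : ℝ) : |max (-r) (min r s) - max (-r) (min r t)| ≤ |s - t| := by
  refine (abs_max_sub_max_le_max (-r) _ (-r) _).trans (max_le ?_ ?_)
  · rw [sub_self, abs_zero]; exact abs_nonneg _
  · refine (abs_min_sub_min_le_max r s r t).trans (max_le ?_ le_rfl)
    rw [sub_self, abs_zero]; exact abs_nonneg _

theorem clamp_abs {r : ℝ} (hr : 0 ≤ r) (s : ℝ) : |max (-r) (min r s)| ≤ r := by
  rw [abs_le]
  exact ⟨le_max_left _ _, max_le (by linarith) (min_le_left _ _)⟩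

theorem clamp_id {r s : ℝ} (h0 : -r ≤ s) (h1 : s ≤ r) : max (-r) (min r s) = s := by
  rw [min_eq_right h1, max_eq_right h0]

/-- One block of scales. -/
theorem block {c : ℝ} (hc : 0 < c) (hM : LF c M) {A : Set M} (hA : IsCompact A) {r r' ε : ℝ}
    (hr' : 0 < r') (hrr : r' ≤ r) (hε : 0 < ε) :
    ∃ (N : ℕ) (G : M → Fin N → ℝ) (η : ℝ), 0 < η ∧ (∀ u v, ‖G u - G v‖ ≤ dist u v) ∧
      (∀ u, ‖G u‖ ≤ r) ∧
      (∀ x ∈ A, ∀ y ∈ A, r' ≤ dist x y → dist x y ≤ r → c / 2 * dist x y ≤ ‖G x - G y‖) ∧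
      (∀ u v, dist u v ≤ η → ‖G u - G v‖ ≤ ε * dist u v) := by
  classical
  have hr : 0 ≤ r := hr'.le.trans hrr
  let P : Set (M × M) := (A ×ˢ A) ∩ {p | r' ≤ dist p.1 p.2 ∧ dist p.1 p.2 ≤ r}
  have hP : IsCompact P := (hA.prod hA).inter_right
    ((isClosed_le continuous_const continuous_dist).inter
      (isClosed_le continuous_dist continuous_const))
  have hf : ∀ p : M × M, p ∈ P → ∃ f : M → ℝ, (∀ u v, |f u - f v| ≤ dist u v) ∧
      (∀ u, |f u| ≤ r) ∧ c * dist p.1 p.2 ≤ f p.2 - f p.1 ∧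
      ∃ η : ℝ, 0 < η ∧ ∀ u v, dist u v ≤ η → |f u - f v| ≤ ε * dist u v := by
    intro p hp
    have hd : r' ≤ dist p.1 p.2 := hp.2.1
    have hd2 : dist p.1 p.2 ≤ r := hp.2.2
    have hne : p.1 ≠ p.2 := fun h => by
      rw [h, dist_self] at hd
      linarith
    obtain ⟨f, hf1, hf2, η, hη, hf3⟩ := hM p.1 p.2 hne ε hε
    have hcl : ∀ u v, |max (-r) (min r (f u - f p.1)) - max (-r) (min r (f v - f p.1))| ≤
        |f u - f v| := fun u v => by
      have := clamp_lip r (f u - f p.1) (f v - f p.1)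
      rwa [sub_sub_sub_cancel_right] at this
    refine ⟨fun u => max (-r) (min r (f u - f p.1)), fun u v => (hcl u v).trans (hf1 u v),
      fun u => clamp_abs hr _, ?_, η, hη, fun u v huv => (hcl u v).trans (hf3 u v huv)⟩
    have h1 := hf1 p.2 p.1
    rw [dist_comm] at h1
    have h2 := abs_le.1 (h1.trans hd2)
    change c * dist p.1 p.2 ≤ max (-r) (min r (f p.2 - f p.1)) - max (-r) (min r (f p.1 - f p.1))
    rw [clamp_id h2.1 h2.2, clamp_id (by rw [sub_self]; linarith) (by rw [sub_self]; exact hr),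
      sub_self, sub_zero]
    exact hf2
  choose! f hf1 hf2 hf3 η hη hf4 using hf
  have hcont : ∀ p ∈ P, Continuous (f p) := fun p hp =>
    (LipschitzWith.of_dist_le_mul (K := 1) fun u v => by
      rw [Real.dist_eq, NNReal.coe_one, one_mul]; exact hf1 p hp u v).continuous
  obtain ⟨t, ht1, ht2⟩ := hP.elim_nhds_subcover
    (fun p => {q : M × M | c / 2 * dist q.1 q.2 < f p q.2 - f p q.1}) (fun p hp => by
      have h1 : Continuous fun q : M × M => f p q.2 - f p q.1 :=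
        ((hcont p hp).comp continuous_snd).sub ((hcont p hp).comp continuous_fst)
      have h2 : Continuous fun q : M × M => c / 2 * dist q.1 q.2 :=
        continuous_const.mul continuous_dist
      refine (isOpen_lt h2 h1).mem_nhds ?_
      have h3 := hf3 p hp
      have h4 : 0 < dist p.1 p.2 := lt_of_lt_of_le hr' hp.2.1
      change c / 2 * dist p.1 p.2 < f p p.2 - f p p.1
      nlinarith)
  obtain ⟨δ, hδ0, hδ⟩ : ∃ δ : ℝ, 0 < δ ∧ ∀ p ∈ t, δ ≤ η p := by
    have h1 : ∀ᶠ δ in 𝓝[>] (0 : ℝ), ∀ p ∈ t, δ ≤ η p := by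
      rw [Filter.eventually_all_finset]
      intro p hp
      have h2 : Set.Ioc (0 : ℝ) (η p) ∈ 𝓝[>] (0 : ℝ) := Ioc_mem_nhdsGT (hη p (ht1 p hp))
      filter_upwards [h2] with δ hδ
      exact hδ.2
    have h2 : ∀ᶠ δ in 𝓝[>] (0 : ℝ), 0 < δ := self_mem_nhdsWithin
    exact (h2.and h1).exists
  let e : t ≃ Fin t.card := t.equivFin
  refine ⟨t.card, fun u i => f (e.symm i).1 u, δ, hδ0, fun u v => ?_, fun u => ?_, ?_,
    fun u v huv => ?_⟩
  · rw [pi_norm_le_iff_of_nonneg dist_nonneg]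
    intro i
    exact hf1 _ (ht1 _ (e.symm i).2) u v
  · rw [pi_norm_le_iff_of_nonneg hr]
    intro i
    exact hf2 _ (ht1 _ (e.symm i).2) u
  · intro x hx y hy h1 h2
    have h3 : (x, y) ∈ P := ⟨⟨hx, hy⟩, h1, h2⟩
    have h4 := ht2 h3
    rw [Set.mem_iUnion₂] at h4
    obtain ⟨p, hp, hpxy⟩ := h4
    have h5 := norm_le_pi_norm ((fun i => f (e.symm i).1 x) - (fun i => f (e.symm i).1 y))
      (e ⟨p, hp⟩)
    refine le_trans ?_ h5
    rw [Pi.sub_apply, Equiv.symm_apply_apply, Real.norm_eq_abs, abs_sub_comm]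
    exact (le_of_lt hpxy).trans (le_abs_self _)
  · rw [pi_norm_le_iff_of_nonneg (by positivity)]
    intro i
    exact hf4 _ (ht1 _ (e.symm i).2) u v (huv.trans (hδ _ (e.symm i).2))

theorem geo (k : ℕ) (s : Finset ℕ) :
    ∑ i ∈ s, (if k ≤ i then (1 / 4 : ℝ) ^ (i - k) else 0) ≤ 4 / 3 := by
  obtain ⟨n, hn⟩ : ∃ n, s ⊆ Finset.range n := ⟨s.sup id + 1, fun i hi => by
    rw [Finset.mem_range]
    exact Nat.lt_succ_of_le (Finset.le_sup (f := id) hi)⟩
  have h1 : ∑ i ∈ s, (if k ≤ i then (1 / 4 : ℝ) ^ (i - k) else 0) ≤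
      ∑ i ∈ Finset.range (k + n), (if k ≤ i then (1 / 4 : ℝ) ^ (i - k) else 0) := by
    refine Finset.sum_le_sum_of_subset_of_nonneg (hn.trans ?_) fun i _ _ => ?_
    · exact Finset.range_subset_range.2 (by omega)
    · split_ifs <;> positivity
  refine h1.trans ?_
  rw [Finset.sum_range_add]
  have h2 : ∑ i ∈ Finset.range k, (if k ≤ i then (1 / 4 : ℝ) ^ (i - k) else 0) = 0 := by
    refine Finset.sum_eq_zero fun i hi => ?_
    rw [Finset.mem_range] at hi
    rw [if_neg (by omega)]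
  have h3 : ∑ i ∈ Finset.range n, (if k ≤ k + i then (1 / 4 : ℝ) ^ (k + i - k) else 0) =
      ∑ i ∈ Finset.range n, (1 / 4 : ℝ) ^ i := by
    refine Finset.sum_congr rfl fun i _ => ?_
    rw [if_pos (by omega), Nat.add_sub_cancel_left]
  rw [h2, h3, zero_add]
  refine ((summable_geometric_of_lt_one (by norm_num) (by norm_num)).sum_le_tsum _
    fun i _ => by positivity).trans ?_
  rw [tsum_geometric_of_lt_one (by norm_num) (by norm_num)]
  norm_num

/-- The sum of the spaces `ℓ_∞^N`. -/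
abbrev FB : Type := lp (fun N : ℕ => (Fin N → ℝ)) 2

/-- The host space for compact sets. -/
abbrev EB : Type := lp (fun _ : ℕ => FB) 2

/-- The states of the recursion. -/
abbrev St : Type := {p : ℝ × ℝ // 0 < p.2 ∧ 2 * p.2 ≤ p.1}

/-- Compact sets. -/
theorem cptEmb {c : ℝ} (hc : 0 < c) (hM : LF c M) {A : Set M} (hA : IsCompact A) {D : ℝ}
    (hD : 0 < D) (hAD : ∀ x ∈ A, ∀ y ∈ A, dist x y ≤ D) :
    ∃ f : M → EB, (∀ x ∈ A, ∀ y ∈ A, c / 2 * dist x y ≤ ‖f x - f y‖) ∧
      (∀ x ∈ A, ∀ y ∈ A, ‖f x - f y‖ ≤ 10 * dist x y) ∧ ∀ x, ‖f x‖ ≤ 2 * D := by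
  have hb : ∀ (i : ℕ) (p : St), ∃ (N : ℕ) (G : M → Fin N → ℝ) (η : ℝ), 0 < η ∧
      (∀ u v, ‖G u - G v‖ ≤ dist u v) ∧ (∀ u, ‖G u‖ ≤ p.1.1) ∧
      (∀ x ∈ A, ∀ y ∈ A, p.1.2 ≤ dist x y → dist x y ≤ p.1.1 →
        c / 2 * dist x y ≤ ‖G x - G y‖) ∧
      (∀ u v, dist u v ≤ η → ‖G u - G v‖ ≤ (1 / 2) ^ i * dist u v) := fun i p =>
    block hc hM hA p.2.1 (by linarith [p.2.1, p.2.2]) (by positivity)
  choose N G η h0 h1 h2 h3 h4 using hb
  let step : ℕ → St → St := fun i p =>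
    ⟨(p.1.2, min (p.1.2 / 2) (η i p)), lt_min (by linarith [p.2.1]) (h0 i p),
      by have := min_le_left (p.1.2 / 2) (η i p)
         change 2 * min (p.1.2 / 2) (η i p) ≤ p.1.2
         linarith⟩
  let st : ℕ → St := fun n => Nat.rec ⟨(D, D / 2), by
    change 0 < D / 2
    linarith, by
    change 2 * (D / 2) ≤ D
    linarith⟩ step n
  have hst : ∀ n, st (n + 1) = step n (st n) := fun n => rfl
  let r : ℕ → ℝ := fun n => (st n).1.1
  have hr0 : r 0 = D := rfl
  have hr1 : ∀ n, (st n).1.2 = r (n + 1) := fun n => rfl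
  have hrpos' : ∀ n, 0 < r (n + 1) := fun n => (st n).2.1
  have hr2 : ∀ n, 2 * r (n + 1) ≤ r n := fun n => (st n).2.2
  have hrη : ∀ n, r (n + 2) ≤ η n (st n) := fun n => min_le_right _ _
  have hrpos : ∀ n, 0 < r n := fun n => by
    have := hr2 n
    have := hrpos' n
    linarith
  have hrdec : ∀ n m, r (n + m) ≤ r n * (1 / 2) ^ m := by
    intro n m
    induction m with
    | zero => simp
    | succ m ih =>
      have := hr2 (n + m)
      rw [pow_succ, ← mul_assoc]
      change r (n + m + 1) ≤ _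
      linarith
  have hranti : ∀ n m, n ≤ m → r m ≤ r n := by
    intro n m hnm
    obtain ⟨k, rfl⟩ := Nat.exists_eq_add_of_le hnm
    refine (hrdec n k).trans ?_
    have h5 : (1 / 2 : ℝ) ^ k ≤ 1 := pow_le_one₀ (by norm_num) (by norm_num)
    calc r n * (1 / 2) ^ k ≤ r n * 1 := by
          have := (hrpos n).le
          gcongr
      _ = r n := mul_one _
  let γ : ℕ → M → FB := fun i x => lp.single 2 (N i (st i)) (G i (st i) x)
  have hγ : ∀ i x y, ‖γ i x - γ i y‖ = ‖G i (st i) x - G i (st i) y‖ := by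
    intro i x y
    simp only [γ]
    rw [← lp.single_sub, lp.norm_single (by norm_num)]
  have hγ0 : ∀ i x, ‖γ i x‖ ≤ r i := by
    intro i x
    simp only [γ]
    rw [lp.norm_single (by norm_num)]
    exact h2 i (st i) x
  have hsq : ∀ (x : M) (s : Finset ℕ), ∑ i ∈ s, ‖γ i x‖ ^ (2 : ℝ≥0∞).toReal ≤ D ^ 2 * (4 / 3) := by
    intro x s
    have h5 : ∀ i, ‖γ i x‖ ^ (2 : ℝ≥0∞).toReal ≤
        D ^ 2 * (if 0 ≤ i then (1 / 4 : ℝ) ^ (i - 0) else 0) := by
      intro i
      rw [if_pos (Nat.zero_le i), Nat.sub_zero, ENNReal.toReal_ofNat, Real.rpow_ofNat]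
      have h6 := hrdec 0 i
      rw [zero_add, hr0] at h6
      calc ‖γ i x‖ ^ 2 ≤ (D * (1 / 2) ^ i) ^ 2 := by
            have := (hγ0 i x).trans h6
            gcongr
        _ = D ^ 2 * (1 / 4) ^ i := by
            rw [mul_pow, ← pow_mul, mul_comm i 2, pow_mul]
            norm_num
    calc ∑ i ∈ s, ‖γ i x‖ ^ (2 : ℝ≥0∞).toReal
        ≤ ∑ i ∈ s, D ^ 2 * (if 0 ≤ i then (1 / 4 : ℝ) ^ (i - 0) else 0) :=
          Finset.sum_le_sum fun i _ => h5 i
      _ = D ^ 2 * ∑ i ∈ s, (if 0 ≤ i then (1 / 4 : ℝ) ^ (i - 0) else 0) := by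
          rw [Finset.mul_sum]
      _ ≤ D ^ 2 * (4 / 3) := by
          have := geo 0 s
          gcongr
  let f : M → EB := fun x => ⟨fun i => γ i x, memℓp_gen' (hsq x)⟩
  have hf : ∀ x y i, (f x - f y) i = γ i x - γ i y := fun x y i => rfl
  have hj : ∀ d : ℝ, 0 < d → d ≤ D → ∃ j, r (j + 1) < d ∧ d ≤ r j := by
    intro d hd0 hdD
    have hex : ∃ j, r (j + 1) < d := by
      obtain ⟨n, hn⟩ := exists_pow_lt_of_lt_one (show 0 < d / D by positivity)
        (show (1 / 2 : ℝ) < 1 by norm_num)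
      refine ⟨n, ?_⟩
      have h6 := hrdec 0 n
      rw [zero_add, hr0] at h6
      have h7 : D * (1 / 2) ^ n < d := by
        rw [lt_div_iff₀ hD] at hn
        linarith
      exact lt_of_le_of_lt (hranti n (n + 1) (Nat.le_succ n)) (lt_of_le_of_lt h6 h7)
    classical
    refine ⟨Nat.find hex, Nat.find_spec hex, ?_⟩
    rcases Nat.eq_zero_or_pos (Nat.find hex) with h5 | h5
    · rw [h5, hr0]; exact hdD
    · have h6 := Nat.find_min hex (Nat.sub_lt h5 one_pos)
      rw [show Nat.find hex - 1 + 1 = Nat.find hex by omega] at h6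
      exact not_lt.1 h6
  refine ⟨f, fun x hx y hy => ?_, fun x hx y hy => ?_, fun x => ?_⟩
  · rcases eq_or_ne x y with rfl | hxy
    · rw [dist_self, mul_zero]; exact norm_nonneg _
    · obtain ⟨j, hj1, hj2⟩ := hj (dist x y) (dist_pos.2 hxy) (hAD x hx y hy)
      have h5 := h3 j (st j) x hx y hy (by rw [hr1]; exact hj1.le) hj2
      rw [← hγ] at h5
      refine h5.trans ?_
      rw [← hf]
      exact lp.norm_apply_le_norm (by norm_num) (f x - f y) j
  · rcases eq_or_ne x y with rfl | hxy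
    · rw [dist_self, mul_zero, sub_self, norm_zero]
    · set d := dist x y with hd
      have hd0 : 0 < d := dist_pos.2 hxy
      obtain ⟨j, hj1, hj2⟩ := hj d hd0 (hAD x hx y hy)
      have hw : ∀ i, ‖γ i x - γ i y‖ ^ 2 ≤ d ^ 2 * (if 0 ≤ i then (1 / 4 : ℝ) ^ (i - 0) else 0) +
          d ^ 2 * 64 * (if j - 1 ≤ i then (1 / 4 : ℝ) ^ (i - (j - 1)) else 0) := by
        intro i
        rw [if_pos (Nat.zero_le i), Nat.sub_zero]
        by_cases hc1 : i + 2 ≤ j
        · have h5 : ‖γ i x - γ i y‖ ≤ (1 / 2) ^ i * d := by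
            rw [hγ]
            exact h4 i (st i) x y (hj2.trans ((hranti (i + 2) j hc1).trans (hrη i)))
          have h6 : ‖γ i x - γ i y‖ ^ 2 ≤ d ^ 2 * (1 / 4) ^ i := by
            calc ‖γ i x - γ i y‖ ^ 2 ≤ ((1 / 2) ^ i * d) ^ 2 := by gcongr
              _ = d ^ 2 * (1 / 4) ^ i := by
                  rw [mul_pow, ← pow_mul, mul_comm i 2, pow_mul]
                  norm_num
                  ring
          have h7 : 0 ≤ d ^ 2 * 64 * (if j - 1 ≤ i then (1 / 4 : ℝ) ^ (i - (j - 1)) else 0) := by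
            split_ifs <;> positivity
          linarith
        · have hk : j - 1 ≤ i := by omega
          rw [if_pos hk]
          have h8 : 0 ≤ d ^ 2 * (1 / 4) ^ i := by positivity
          by_cases hc2 : i ≤ j
          · have h5 : ‖γ i x - γ i y‖ ≤ d := by
              rw [hγ]
              exact h1 i (st i) x y
            have h6 : (1 / 4 : ℝ) ^ 1 ≤ (1 / 4) ^ (i - (j - 1)) :=
              pow_le_pow_of_le_one (by norm_num) (by norm_num) (by omega)
            have h7 : ‖γ i x - γ i y‖ ^ 2 ≤ d ^ 2 := by gcongr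
            have h9 : d ^ 2 * 64 * (1 / 4 : ℝ) ^ 1 ≤
                d ^ 2 * 64 * (1 / 4) ^ (i - (j - 1)) := by gcongr
            have h10 : 0 ≤ d ^ 2 := by positivity
            linarith
          · obtain ⟨m, rfl⟩ : ∃ m, i = j + 1 + m := ⟨i - (j + 1), by omega⟩
            have h5 : ‖γ (j + 1 + m) x - γ (j + 1 + m) y‖ ≤ 2 * (d * (1 / 2) ^ m) := by
              have h6 := hrdec (j + 1) m
              have h7 := norm_sub_le (γ (j + 1 + m) x) (γ (j + 1 + m) y)
              have h9 := hγ0 (j + 1 + m) x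
              have h10 := hγ0 (j + 1 + m) y
              have h11 : r (j + 1) * (1 / 2) ^ m ≤ d * (1 / 2) ^ m := by gcongr
              linarith
            have h6 : (1 / 4 : ℝ) ^ (m + 2) ≤ (1 / 4) ^ (j + 1 + m - (j - 1)) :=
              pow_le_pow_of_le_one (by norm_num) (by norm_num) (by omega)
            have h7 : ‖γ (j + 1 + m) x - γ (j + 1 + m) y‖ ^ 2 ≤ d ^ 2 * 64 * (1 / 4) ^ (m + 2) := by
              calc ‖γ (j + 1 + m) x - γ (j + 1 + m) y‖ ^ 2 ≤ (2 * (d * (1 / 2) ^ m)) ^ 2 := by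
                    gcongr
                _ = d ^ 2 * 64 * (1 / 4) ^ (m + 2) := by
                    rw [mul_pow, mul_pow, ← pow_mul, mul_comm m 2, pow_mul, pow_add]
                    norm_num
                    ring
            have h9 : d ^ 2 * 64 * (1 / 4 : ℝ) ^ (m + 2) ≤
                d ^ 2 * 64 * (1 / 4) ^ (j + 1 + m - (j - 1)) := by gcongr
            linarith
      refine lp.norm_le_of_forall_sum_le (by norm_num) (by positivity) fun s => ?_
      simp only [ENNReal.toReal_ofNat, Real.rpow_ofNat]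
      calc ∑ i ∈ s, ‖(f x - f y) i‖ ^ 2 ≤ ∑ i ∈ s,
            (d ^ 2 * (if 0 ≤ i then (1 / 4 : ℝ) ^ (i - 0) else 0) +
            d ^ 2 * 64 * (if j - 1 ≤ i then (1 / 4 : ℝ) ^ (i - (j - 1)) else 0)) :=
            Finset.sum_le_sum fun i _ => hw i
        _ = d ^ 2 * ∑ i ∈ s, (if 0 ≤ i then (1 / 4 : ℝ) ^ (i - 0) else 0) +
            d ^ 2 * 64 * ∑ i ∈ s, (if j - 1 ≤ i then (1 / 4 : ℝ) ^ (i - (j - 1)) else 0) := by
            rw [Finset.sum_add_distrib, Finset.mul_sum, Finset.mul_sum]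
        _ ≤ d ^ 2 * (4 / 3) + d ^ 2 * 64 * (4 / 3) := by
            have h5 := geo 0 s
            have h6 := geo (j - 1) s
            gcongr
        _ ≤ (10 * d) ^ 2 := by nlinarith [sq_nonneg d]
  · refine lp.norm_le_of_forall_sum_le (by norm_num) (by positivity) fun s => ?_
    refine (hsq x s).trans ?_
    rw [ENNReal.toReal_ofNat, Real.rpow_ofNat]
    nlinarith [sq_nonneg D]

/-- The host space for proper spaces. -/
abbrev ZB : Type := lp (fun _ : ℤ => EB) 2 × ℝ

theorem rfx_EB : Rfx EB :=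
  rfx_lp two_conj (by norm_num) fun _ => rfx_lp two_conj (by norm_num) fun _ => rfx_fin _

theorem rfx_ZB : Rfx ZB := rfx_prod (rfx_lp two_conj (by norm_num) fun _ => rfx_EB) (rfx_fin ℝ)

theorem sep_EB : TopologicalSpace.SeparableSpace EB := by
  have h1 : TopologicalSpace.SeparableSpace FB := sep_lp (by norm_num)
  exact sep_lp (by norm_num)

theorem sep_ZB : TopologicalSpace.SeparableSpace ZB := by
  have h1 := sep_EB
  have h2 : TopologicalSpace.SeparableSpace (lp (fun _ : ℤ => EB) 2) := sep_lp (by norm_num)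
  infer_instance

/-- Proper spaces with many locally flat functions embed in `ZB`. -/
theorem embB [ProperSpace M] {c : ℝ} (hc : 0 < c) (hM : LF c M) :
    ∃ h : M → ZB, ∀ x y, cGl (c / 2) 16 * dist x y ≤ dist (h x) (h y) ∧
      dist (h x) (h y) ≤ (4 * (10 + 16) + 1) * dist x y := by
  rcases isEmpty_or_nonempty M with hE | ⟨⟨o⟩⟩
  · exact ⟨fun _ => 0, fun x => (hE.false x).elim⟩
  have hA : ∀ n : ℤ, IsCompact (Ann o n) := by
    intro n
    have h1 : Ann o n = Metric.closedBall o (2 ^ (n + 2)) ∩ {x | (2 : ℝ) ^ n ≤ dist x o} := by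
      ext x
      simp only [Ann, Set.mem_inter_iff, Metric.mem_closedBall, Set.mem_ofPred_eq]
      tauto
    rw [h1]
    exact (isCompact_closedBall o _).inter_right
      (isClosed_le continuous_const (continuous_id.dist continuous_const))
  have hD : ∀ n : ℤ, ∀ x ∈ Ann o n, ∀ y ∈ Ann o n, dist x y ≤ 2 ^ (n + 3) := by
    intro n x hx y hy
    have h1 := dist_triangle_right x y o
    have h2 := hx.2
    have h3 := hy.2
    have h4 : (2 : ℝ) ^ (n + 3) = 2 * 2 ^ (n + 2) := by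
      rw [show n + 3 = n + 2 + 1 by ring, zpow_add₀ (by norm_num : (2 : ℝ) ≠ 0) (n + 2) 1, zpow_one]
      ring
    rw [h4]
    linarith
  choose f hf1 hf2 hf3 using fun n : ℤ => cptEmb hc hM (hA n) (two_zpow_pos (n + 3)) (hD n)
  refine glue o f (by positivity) (by norm_num) (by norm_num) hf1 hf2 fun n x _ => ?_
  refine (hf3 n x).trans (le_of_eq ?_)
  rw [zpow_add₀ (by norm_num)]
  norm_num
  ring

end

end Pool.Agent.Helper85.TS
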