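import Pool.Agent.Helper85.TS.Lim

/-! Proper purely unrectifiable spaces have many locally flat functions. -/

namespace Pool.Agent.Helper85.TS

open Filter Topology MeasureTheory

variable {M : Type} [MetricSpace M]

/-- the cost of a step -/
noncomputable def cst (δ ε : ℝ) (u v : M) : ℝ := if dist u v ≤ δ then ε * dist u v else dist u v

/-- the cost of the first steps of a chain -/
noncomputable def ct (δ ε : ℝ) (z : ℕ → M) (i : ℕ) : ℝ :=
  ∑ j ∈ Finset.range i, cst δ ε (z j) (z (j + 1))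

/-- the length of the first steps of a chain -/
noncomputable def tl (z : ℕ → M) (i : ℕ) : ℝ := ∑ j ∈ Finset.range i, dist (z j) (z (j + 1))

variable {δ ε : ℝ}

theorem cst_nonneg (h : 0 ≤ ε) (u v : M) : 0 ≤ cst δ ε u v := by
  unfold cst
  split_ifs
  · positivity
  · exact dist_nonneg

theorem cst_le (h : ε ≤ 1) (u v : M) : cst δ ε u v ≤ dist u v := by
  unfold cst
  have h2 : 0 ≤ dist u v := dist_nonneg
  split_ifs
  · nlinarith
  · exact le_rfl

theorem le_cst (h : ε ≤ 1) (u v : M) : ε * dist u v ≤ cst δ ε u v := by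
  unfold cst
  have h2 : 0 ≤ dist u v := dist_nonneg
  split_ifs
  · exact le_rfl
  · nlinarith

theorem cst_comm (u v : M) : cst δ ε u v = cst δ ε v u := by
  unfold cst
  rw [dist_comm]

theorem ct_succ (z : ℕ → M) (i : ℕ) :
    ct δ ε z (i + 1) = ct δ ε z i + cst δ ε (z i) (z (i + 1)) := Finset.sum_range_succ _ _

theorem tl_succ (z : ℕ → M) (i : ℕ) : tl z (i + 1) = tl z i + dist (z i) (z (i + 1)) :=
  Finset.sum_range_succ _ _

theorem ct_mono (h : 0 ≤ ε) (z : ℕ → M) (i j : ℕ) (hij : i ≤ j) : ct δ ε z i ≤ ct δ ε z j := by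
  induction j, hij using Nat.le_induction with
  | base => exact le_rfl
  | succ j _ ih =>
    rw [ct_succ]
    have := cst_nonneg (δ := δ) h (z j) (z (j + 1))
    linarith

theorem ct_sub_le (h : ε ≤ 1) (z : ℕ → M) (i j : ℕ) (hij : i ≤ j) :
    ct δ ε z j - ct δ ε z i ≤ tl z j - tl z i := by
  induction j, hij using Nat.le_induction with
  | base => simp
  | succ j _ ih =>
    rw [ct_succ, tl_succ]
    have := cst_le (δ := δ) h (z j) (z (j + 1))
    linarith

theorem dist_le_tl (z : ℕ → M) (i j : ℕ) (hij : i ≤ j) : dist (z i) (z j) ≤ tl z j - tl z i := by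
  induction j, hij using Nat.le_induction with
  | base => simp
  | succ j _ ih =>
    rw [tl_succ]
    have := dist_triangle (z i) (z j) (z (j + 1))
    linarith

theorem le_ct (h : ε ≤ 1) (z : ℕ → M) (i : ℕ) : ε * tl z i ≤ ct δ ε z i := by
  unfold tl ct
  rw [Finset.mul_sum]
  exact Finset.sum_le_sum fun j _ => le_cst h _ _

theorem chain_bound [ProperSpace M] (hPU : PU M) {x y : M} {T : ℝ} (hε0 : 0 < ε) (hε1 : ε ≤ 1)
    (hT : T < dist x y) :
    ∃ δ : ℝ, 0 < δ ∧ ∀ (n : ℕ) (z : ℕ → M), z 0 = x → z n = y → T ≤ ct δ ε z n := by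
  by_contra hcon
  have h1 : ∀ m : ℕ, ∃ (n : ℕ) (z : ℕ → M), z 0 = x ∧ z n = y ∧
      ct (1 / ((m : ℝ) + 1)) ε z n < T := by
    intro m
    by_contra h2
    push Not at h2
    exact hcon ⟨1 / ((m : ℝ) + 1), by positivity, h2⟩
  choose n z h0 hn hc using h1
  have H : Chs x y T (T / ε) n z (fun m => tl (z m)) (fun m => ct (1 / ((m : ℝ) + 1)) ε (z m)) :=
    { z0 := h0
      zn := hn
      t0 := fun m => Finset.sum_range_zero _
      C0 := fun m => Finset.sum_range_zero _
      Cm := fun m => ct_mono hε0.le (z m)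
      Ct := fun m => ct_sub_le hε1 (z m)
      dt := fun m => dist_le_tl (z m)
      tL := fun m => by
        rw [le_div_iff₀ hε0, mul_comm]
        exact (le_ct hε1 (z m) (n m)).trans (hc m).le
      CT := fun m => (hc m).le
      big := fun m i hi => by
        rw [tl_succ, add_sub_cancel_left] at hi
        rw [tl_succ, ct_succ, add_sub_cancel_left, add_sub_cancel_left]
        unfold cst
        rw [if_neg (not_le.2 hi)] }
  have h2 := H.main hPU
  linarith

/-- Proper purely unrectifiable spaces have many locally flat functions. -/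
theorem lf_of_pu [ProperSpace M] (hPU : PU M) : LF (1 / 2) M := by
  intro x y hxy ε' hε'
  have hd : 0 < dist x y := dist_pos.2 hxy
  obtain ⟨ε, hε0, hε1, hεε⟩ : ∃ ε : ℝ, 0 < ε ∧ ε ≤ 1 ∧ ε ≤ ε' :=
    ⟨min ε' 1, lt_min hε' one_pos, min_le_right _ _, min_le_left _ _⟩
  obtain ⟨δ, hδ, hch⟩ := chain_bound hPU hε0 hε1 (show 1 / 2 * dist x y < dist x y by linarith)
  let S : M → Set ℝ := fun u => {a | ∃ (n : ℕ) (z : ℕ → M), z 0 = x ∧ z n = u ∧ a = ct δ ε z n}
  have hSne : ∀ u, (S u).Nonempty := fun u =>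
    ⟨_, 1, fun i => if i = 0 then x else u, by simp, by simp, rfl⟩
  have hct0 : ∀ (z : ℕ → M) (n : ℕ), 0 ≤ ct δ ε z n := fun z n =>
    Finset.sum_nonneg fun j _ => cst_nonneg hε0.le _ _
  have hSbd : ∀ u, BddBelow (S u) := fun u => ⟨0, by
    rintro a ⟨n, z, _, _, rfl⟩
    exact hct0 z n⟩
  have hstep : ∀ u v, sInf (S u) ≤ sInf (S v) + cst δ ε v u := by
    intro u v
    rw [← sub_le_iff_le_add]
    refine le_csInf (hSne v) ?_
    rintro a ⟨n, z, h0, hn, rfl⟩
    rw [sub_le_iff_le_add]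
    refine csInf_le (hSbd u) ⟨n + 1, fun i => if i ≤ n then z i else u, by simp [h0], by simp, ?_⟩
    rw [ct_succ]
    congr 1
    · unfold ct
      refine Finset.sum_congr rfl fun j hj => ?_
      rw [Finset.mem_range] at hj
      simp only
      rw [if_pos hj.le, if_pos (show j + 1 ≤ n by omega)]
    · rw [if_pos le_rfl, if_neg (show ¬ n + 1 ≤ n by omega), hn]
  have habs : ∀ u v, |sInf (S u) - sInf (S v)| ≤ cst δ ε u v := by
    intro u v
    have h1 := hstep u v
    have h2 := hstep v u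
    rw [cst_comm] at h1
    rw [abs_le]
    constructor <;> linarith
  refine ⟨fun u => sInf (S u), fun u v => (habs u v).trans (cst_le hε1 u v), ?_, δ, hδ,
    fun u v huv => ?_⟩
  · have h1 : sInf (S x) ≤ 0 := csInf_le (hSbd x) ⟨0, fun _ => x, rfl, rfl, by
      rw [ct, Finset.sum_range_zero]⟩
    have h2 : 1 / 2 * dist x y ≤ sInf (S y) := by
      refine le_csInf (hSne y) ?_
      rintro a ⟨n, z, h0, hn, rfl⟩
      exact hch n z h0 hn
    linarith
  · refine (habs u v).trans ?_
    unfold cst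
    rw [if_pos huv]
    exact mul_le_mul_of_nonneg_right hεε dist_nonneg

end Pool.Agent.Helper85.TS
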