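import Pool.Agent.Helper85.TS.Null

/-! The limit of a sequence of cheap chains in a proper purely unrectifiable space. -/

namespace Pool.Agent.Helper85.TS

open Filter Topology MeasureTheory

variable {M : Type} [MetricSpace M]

/-- A sequence of chains from `x` to `y` with times `t`, costs `C`. -/
structure Chs (x y : M) (T L : ℝ) (n : ℕ → ℕ) (z : ℕ → ℕ → M) (t C : ℕ → ℕ → ℝ) : Prop where
  z0 : ∀ m, z m 0 = x
  zn : ∀ m, z m (n m) = y
  t0 : ∀ m, t m 0 = 0
  C0 : ∀ m, C m 0 = 0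
  Cm : ∀ m i j, i ≤ j → C m i ≤ C m j
  Ct : ∀ m i j, i ≤ j → C m j - C m i ≤ t m j - t m i
  dt : ∀ m i j, i ≤ j → dist (z m i) (z m j) ≤ t m j - t m i
  tL : ∀ m, t m (n m) ≤ L
  CT : ∀ m, C m (n m) ≤ T
  big : ∀ (m i : ℕ), 1 / ((m : ℝ) + 1) < t m (i + 1) - t m i → C m (i + 1) - C m i = t m (i + 1) - t m i

/-- the limit relation -/
def Rl (n : ℕ → ℕ) (z : ℕ → ℕ → M) (t : ℕ → ℕ → ℝ) (s : ℝ) (p : M) : Prop :=
  ∀ η : ℝ, 0 < η → ∀ᶠ m in (hyperfilter ℕ : Filter ℕ), ∃ i ≤ n m, |t m i - s| < η ∧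
    dist (z m i) p < η

variable {x y : M} {T L : ℝ} {n : ℕ → ℕ} {z : ℕ → ℕ → M} {t C : ℕ → ℕ → ℝ}

theorem Chs.dt' (h : Chs x y T L n z t C) (m i j : ℕ) :
    dist (z m i) (z m j) ≤ |t m i - t m j| := by
  rcases le_total i j with hij | hij
  · have := h.dt m i j hij
    rw [abs_sub_comm]
    exact this.trans (le_abs_self _)
  · have := h.dt m j i hij
    rw [dist_comm]
    exact this.trans (le_abs_self _)

theorem Chs.tm (h : Chs x y T L n z t C) (m i j : ℕ) (hij : i ≤ j) : t m i ≤ t m j := by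
  have h1 := h.dt m i j hij
  have h2 : 0 ≤ dist (z m i) (z m j) := dist_nonneg
  linarith

theorem Chs.Rl_dist (h : Chs x y T L n z t C) {s s' : ℝ} {p p' : M} (h1 : Rl n z t s p)
    (h2 : Rl n z t s' p') : dist p p' ≤ |s - s'| := by
  refine le_of_forall_pos_le_add fun η hη => ?_
  obtain ⟨m, ⟨i, _, hi1, hi2⟩, ⟨j, _, hj1, hj2⟩⟩ :=
    ((h1 (η / 4) (by positivity)).and (h2 (η / 4) (by positivity))).exists
  have h3 := h.dt' m i j
  have h4 := dist_triangle4 p (z m i) (z m j) p'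
  have h4' := dist_comm p (z m i)
  have h5 : |t m i - t m j| ≤ |t m i - s| + |s - s'| + |t m j - s'| := by
    have h6 := abs_sub_le (t m i) s (t m j)
    have h7 := abs_sub_le s s' (t m j)
    rw [abs_sub_comm s' (t m j)] at h7
    linarith
  linarith

theorem Chs.R0 (h : Chs x y T L n z t C) : Rl n z t 0 x := fun η hη =>
  Eventually.of_forall fun m => ⟨0, Nat.zero_le _, by rw [h.t0, sub_zero, abs_zero]; exact hη,
    by rw [h.z0, dist_self]; exact hη⟩

theorem Chs.Rn (h : Chs x y T L n z t C) {s : ℝ}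
    (hs : Tendsto (fun m => t m (n m)) (hyperfilter ℕ : Filter ℕ) (𝓝 s)) : Rl n z t s y := by
  intro η hη
  have h1 : ∀ᶠ m in (hyperfilter ℕ : Filter ℕ), dist (t m (n m)) s < η := by
    rw [Metric.tendsto_nhds] at hs
    exact hs η hη
  filter_upwards [h1] with m hm
  exact ⟨n m, le_rfl, by rwa [Real.dist_eq] at hm, by rw [h.zn, dist_self]; exact hη⟩

/-- off the domain of the limit relation there is a gap -/
theorem Chs.gap [ProperSpace M] (h : Chs x y T L n z t C) {s : ℝ}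
    (hs : ¬ ∃ p, Rl n z t s p) : ∃ c : ℝ, 0 < c ∧
    ∀ᶠ m in (hyperfilter ℕ : Filter ℕ), ∀ i ≤ n m, c ≤ |t m i - s| := by
  by_contra hcon
  apply hs
  have h1 : ∀ c : ℝ, 0 < c → ∀ᶠ m in (hyperfilter ℕ : Filter ℕ), ∃ i ≤ n m, |t m i - s| < c := by
    intro c hc
    have h2 : ¬ ∀ᶠ m in (hyperfilter ℕ : Filter ℕ), ∀ i ≤ n m, c ≤ |t m i - s| :=
      fun h3 => hcon ⟨c, hc, h3⟩
    rw [← Ultrafilter.eventually_not] at h2
    filter_upwards [h2] with m hm
    push Not at hm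
    exact hm
  have h2 : ∀ m, ∃ i ≤ n m, ∀ j ≤ n m, |t m i - s| ≤ |t m j - s| := by
    intro m
    obtain ⟨i, hi, hi2⟩ := Finset.exists_min_image (Finset.range (n m + 1))
      (fun i => |t m i - s|) ⟨0, Finset.mem_range.2 (Nat.succ_pos _)⟩
    exact ⟨i, Nat.le_of_lt_succ (Finset.mem_range.1 hi),
      fun j hj => hi2 j (Finset.mem_range.2 (Nat.lt_succ_of_le hj))⟩
  choose i hi1 hi2 using h2
  obtain ⟨p, _, hp⟩ := ulimM (isCompact_closedBall x L) (f := fun m => z m (i m)) (fun m => by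
    rw [Metric.mem_closedBall, dist_comm]
    have h3 := h.dt m 0 (i m) (Nat.zero_le _)
    rw [h.z0, h.t0] at h3
    have h4 := h.tm m (i m) (n m) (hi1 m)
    have h5 := h.tL m
    linarith)
  refine ⟨p, fun η hη => ?_⟩
  rw [Metric.tendsto_nhds] at hp
  filter_upwards [h1 η hη, hp η hη] with m ⟨j, hj, hj2⟩ hm2
  exact ⟨i m, hi1 m, (hi2 m j hj).trans_lt hj2, hm2⟩

theorem not_Rl {s s' c : ℝ}
    (hc : ∀ᶠ m in (hyperfilter ℕ : Filter ℕ), ∀ i ≤ n m, c ≤ |t m i - s|)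
    (hs : |s' - s| < c) (p : M) : ¬ Rl n z t s' p := by
  intro hR
  obtain ⟨m, hm, i, hi, hi1, _⟩ := (hc.and (hR (c - |s' - s|) (by linarith))).exists
  have h1 := hm i hi
  have h2 := abs_sub_le (t m i) s' s
  linarith

theorem Chs.closed [ProperSpace M] (h : Chs x y T L n z t C) :
    IsClosed {s | ∃ p, Rl n z t s p} := by
  rw [← isOpen_compl_iff, Metric.isOpen_iff]
  intro s hs
  obtain ⟨c, hc, hc2⟩ := h.gap hs
  refine ⟨c, hc, fun s' hs' => ?_⟩
  rw [Metric.mem_ball, Real.dist_eq] at hs'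
  rintro ⟨p, hp⟩
  exact not_Rl hc2 hs' p hp

theorem Chs.fc_bd (h : Chs x y T L n z t C) (m : ℕ) (s : ℝ) :
    fc (t m) (C m) (n m) s ∈ Set.Icc 0 (max s 0) := by
  refine ⟨le_fc fun i _ => ?_, ?_⟩
  · have h1 := h.Cm m 0 i (Nat.zero_le _)
    rw [h.C0] at h1
    have := le_max_right (s - t m i) 0
    linarith
  · refine (fc_le (Nat.zero_le _) s).trans ?_
    rw [h.C0, h.t0, sub_zero, zero_add]

/-- slope one at a gap -/
theorem Chs.slope (h : Chs x y T L n z t C) {F : ℝ → ℝ}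
    (hF : ∀ s, Tendsto (fun m => fc (t m) (C m) (n m) s) (hyperfilter ℕ : Filter ℕ) (𝓝 (F s)))
    {b : ℝ} (hb : Tendsto (fun m => t m (n m)) (hyperfilter ℕ : Filter ℕ) (𝓝 b)) {s c : ℝ}
    (hc0 : 0 < c) (hc : ∀ᶠ m in (hyperfilter ℕ : Filter ℕ), ∀ i ≤ n m, c ≤ |t m i - s|)
    (hs0 : 0 < s) (hsb : s < b) {s' : ℝ} (hs' : |s' - s| < c) : F s' - F s = s' - s := by
  have h1 : ∀ᶠ m in (hyperfilter ℕ : Filter ℕ), s < t m (n m) := hb.eventually_const_lt hsb
  have h2 : ∀ᶠ m : ℕ in (hyperfilter ℕ : Filter ℕ), 1 / ((m : ℝ) + 1) < 2 * c := by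
    have h3 : Tendsto (fun m : ℕ => 1 / ((m : ℝ) + 1)) atTop (𝓝 0) :=
      tendsto_one_div_add_atTop_nhds_zero_nat
    exact Nat.hyperfilter_le_atTop (h3.eventually_lt_const (by positivity))
  have h4 : Tendsto (fun m => fc (t m) (C m) (n m) s' - fc (t m) (C m) (n m) s)
      (hyperfilter ℕ : Filter ℕ) (𝓝 (F s' - F s)) := (hF s').sub (hF s)
  refine tendsto_nhds_unique (h4.congr' ?_) tendsto_const_nhds
  filter_upwards [hc, h1, h2] with m hm1 hm2 hm3
  obtain ⟨i, hin, hi1, hi2⟩ := exists_step (t := t m) (n := n m) (s := s)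
    (by rw [h.t0]; exact hs0) hm2.le
  have h5 := hm1 i hin.le
  have h6 := hm1 (i + 1) hin
  rw [abs_of_neg (by linarith)] at h5
  rw [abs_of_nonneg (by linarith)] at h6
  have h7 := h.big m i (by linarith)
  have h8 := abs_lt.1 hs'
  rw [fc_slope (h.Cm m) (h.Ct m) hin h7 (by linarith) (by linarith),
    fc_slope (h.Cm m) (h.Ct m) hin h7 hi1.le hi2]
  ring

/-- The main estimate: the costs cannot stay below the distance. -/
theorem Chs.main [ProperSpace M] (hPU : PU M) (h : Chs x y T L n z t C) : dist x y ≤ T := by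
  classical
  have hL : ∀ m, t m (n m) ∈ Set.Icc 0 L := fun m => ⟨by
    have := h.tm m 0 (n m) (Nat.zero_le _)
    rwa [h.t0] at this, h.tL m⟩
  obtain ⟨b, hb0, hb⟩ := ulim hL
  choose F hFm hF using fun s => ulim (fun m => h.fc_bd m s)
  let K : Set ℝ := {s | ∃ p, Rl n z t s p}
  have hKcl : IsClosed K := h.closed
  have hx : ∃ γ : ℝ → M, ∀ s ∈ K, Rl n z t s (γ s) := by
    refine ⟨fun s => if hs : ∃ p, Rl n z t s p then hs.choose else x, fun s hs => ?_⟩
    have hs' : ∃ p, Rl n z t s p := hs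
    simp only [dif_pos hs']
    exact hs'.choose_spec
  obtain ⟨γ, hγ⟩ := hx
  have hγd : ∀ s ∈ K, ∀ s' ∈ K, dist (γ s) (γ s') ≤ |s - s'| := fun s hs s' hs' =>
    h.Rl_dist (hγ s hs) (hγ s' hs')
  have h0K : (0 : ℝ) ∈ K := ⟨x, h.R0⟩
  have hbK : b ∈ K := ⟨y, h.Rn hb⟩
  have hγ0 : γ 0 = x := by
    rw [← dist_le_zero]
    simpa using h.Rl_dist (hγ 0 h0K) h.R0
  have hγb : γ b = y := by
    rw [← dist_le_zero]
    simpa using h.Rl_dist (hγ b hbK) (h.Rn hb)
  have hlip : LipschitzOnWith 1 (fun s => dist x (γ s)) K := by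
    refine LipschitzOnWith.of_dist_le_mul fun s hs s' hs' => ?_
    rw [NNReal.coe_one, one_mul, Real.dist_eq, Real.dist_eq]
    refine le_trans ?_ (hγd s hs s' hs')
    rw [dist_comm x, dist_comm x]
    exact abs_dist_sub_le _ _ _
  obtain ⟨u, hu1, hu2⟩ := hlip.extend_real
  have hFlip : LipschitzWith 1 F := by
    refine LipschitzWith.of_dist_le_mul fun s s' => ?_
    rw [NNReal.coe_one, one_mul, Real.dist_eq, Real.dist_eq]
    exact le_of_tendsto ((hF s).sub (hF s')).abs (Eventually.of_forall fun m => fc_abs _ _)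
  have hFmono : Monotone F := fun s s' hss =>
    le_of_tendsto_of_tendsto' (hF s) (hF s') fun m => fc_mono hss
  have hF0 : F 0 = 0 := by
    have h1 := hFm 0
    rw [max_self, Set.Icc_self] at h1
    exact h1
  have hFb : F b ≤ T := by
    have h1 : Tendsto (fun m => T + |t m (n m) - b|) (hyperfilter ℕ : Filter ℕ)
        (𝓝 (T + |b - b|)) := tendsto_const_nhds.add (hb.sub_const b).abs
    have h2 := le_of_tendsto_of_tendsto' (hF b) h1 fun m => by
      have h3 := fc_lip (t := t m) (C := C m) (n := n m) (t m (n m)) b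
      have h4 := fc_le (t := t m) (C := C m) (le_refl (n m)) (t m (n m))
      rw [sub_self, max_self, add_zero] at h4
      have h5 := h.CT m
      rw [abs_sub_comm] at h3
      linarith
    simpa using h2
  have key := mono_of_slope (K := K) hb0.1 hFlip hFmono hu1 (fun s hs hs0 hsb => by
    obtain ⟨c, hc0, hc⟩ := h.gap hs
    have h1 : F =ᶠ[𝓝 s] fun s' => F s + (s' - s) := by
      filter_upwards [Metric.ball_mem_nhds s hc0] with s' hs'
      rw [Metric.mem_ball, Real.dist_eq] at hs'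
      have := h.slope hF hb hc0 hc hs0 hsb hs'
      linarith
    have h2 : HasDerivAt (fun s' => F s + (s' - s)) 1 s :=
      ((hasDerivAt_id s).sub_const s).const_add (F s)
    exact h2.congr_of_eventuallyEq h1)
    (deriv_zero_ae hPU hKcl hγd fun s hs => (hu2 hs).symm)
  rw [← hu2 hbK, ← hu2 h0K] at key
  simp only [hγ0, hγb, dist_self, hF0] at key
  linarith

end Pool.Agent.Helper85.TS
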