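import Pool.Agent.Helper85.TS.PU

/-! Distance functions along a partially defined 1-Lipschitz curve in a purely unrectifiable space
have vanishing derivative almost everywhere. -/

namespace Pool.Agent.Helper85.TS

open Filter Topology MeasureTheory

variable {M : Type} [MetricSpace M]

theorem closed_piece {K : Set ℝ} (hK : IsClosed K) {γ : ℝ → M}
    (hγ : ∀ s ∈ K, ∀ s' ∈ K, dist (γ s) (γ s') ≤ |s - s'|) {a C : ℝ} (hC : 0 ≤ C) :
    IsClosed {s | s ∈ K ∧ ∀ s' ∈ K, |s' - s| < a → |s' - s| ≤ C * dist (γ s) (γ s')} := by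
  rw [← isSeqClosed_iff_isClosed]
  intro f s hf hs
  have hsK : s ∈ K := hK.mem_of_tendsto hs (Eventually.of_forall fun n => (hf n).1)
  refine ⟨hsK, fun s' hs' hlt => ?_⟩
  have h1 : Tendsto (fun n => |s' - f n|) atTop (𝓝 |s' - s|) := (tendsto_const_nhds.sub hs).abs
  have h2 : Tendsto (fun n => C * (dist (γ s) (γ s') + |f n - s|)) atTop
      (𝓝 (C * (dist (γ s) (γ s') + |s - s|))) :=
    (tendsto_const_nhds.add (hs.sub_const s).abs).const_mul C
  have h3 : ∀ᶠ n in atTop, |s' - f n| < a := h1.eventually_lt_const hlt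
  have h4 := le_of_tendsto_of_tendsto h1 h2 (h3.mono fun n hn => by
    refine ((hf n).2 s' hs' hn).trans ?_
    have h5 := dist_triangle (γ (f n)) (γ s) (γ s')
    have h6 := hγ (f n) (hf n).1 s hsK
    have h7 : dist (γ (f n)) (γ s') ≤ dist (γ s) (γ s') + |f n - s| := by linarith
    exact mul_le_mul_of_nonneg_left h7 hC)
  simpa using h4

theorem deriv_zero_ae (hPU : PU M) {K : Set ℝ} (hK : IsClosed K) {γ : ℝ → M}
    (hγ : ∀ s ∈ K, ∀ s' ∈ K, dist (γ s) (γ s') ≤ |s - s'|) {x : M} {u : ℝ → ℝ}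
    (hu : ∀ s ∈ K, u s = dist x (γ s)) : ∀ᵐ s : ℝ, s ∈ K → deriv u s = 0 := by
  let N : ℕ → Set ℝ := fun j => {s | s ∈ K ∧ ∀ s' ∈ K, |s' - s| < 1 / ((j : ℝ) + 1) →
    |s' - s| ≤ ((j : ℝ) + 1) * dist (γ s) (γ s')}
  have hNcl : ∀ j, IsClosed (N j) := fun j => closed_piece hK hγ (by positivity)
  have hN0 : ∀ j, volume (N j) = 0 := by
    intro j
    have hj : (0 : ℝ) < (j : ℝ) + 1 := by positivity
    refine measure_null_of_locally_null _ fun s hs => ?_
    refine ⟨N j ∩ Metric.closedBall s (1 / (4 * ((j : ℝ) + 1))), inter_mem_nhdsWithin _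
      (Metric.closedBall_mem_nhds _ (by positivity)), ?_⟩
    refine hPU _ γ ((j : ℝ) + 1) ((isCompact_closedBall _ _).inter_left (hNcl j)) ?_
    rintro a ⟨ha, ha'⟩ b ⟨hb, hb'⟩
    have h1 : |b - a| < 1 / ((j : ℝ) + 1) := by
      rw [Metric.mem_closedBall, Real.dist_eq] at ha' hb'
      have h2 : |b - a| ≤ |b - s| + |a - s| := by
        have := abs_sub_le b s a
        rwa [abs_sub_comm s a] at this
      have h3 : 1 / (4 * ((j : ℝ) + 1)) = 1 / ((j : ℝ) + 1) / 4 := by
        rw [div_div, mul_comm]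
      have h4 : 0 < 1 / ((j : ℝ) + 1) := by positivity
      rw [h3] at ha' hb'
      linarith
    refine ⟨?_, ?_⟩
    · refine (hγ a ha.1 b hb.1).trans ?_
      have h2 : (0 : ℝ) ≤ |a - b| := abs_nonneg _
      have h3 : (0 : ℝ) ≤ j := Nat.cast_nonneg j
      nlinarith
    · rw [abs_sub_comm]
      exact ha.2 b hb.1 h1
  have h0 : ∀ᵐ s : ℝ, s ∉ ⋃ j, N j :=
    measure_eq_zero_iff_ae_notMem.1 (measure_iUnion_null hN0)
  filter_upwards [h0] with s hs hsK
  by_cases hd : DifferentiableAt ℝ u s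
  · rw [← abs_nonpos_iff]
    refine le_of_forall_pos_le_add fun ε hε => ?_
    have h1 := hd.hasDerivAt
    rw [hasDerivAt_iff_isLittleO] at h1
    have h2 := h1.def (show 0 < ε / 2 by positivity)
    rw [Metric.eventually_nhds_iff] at h2
    obtain ⟨ρ, hρ, h2⟩ := h2
    obtain ⟨j, hj⟩ := exists_nat_one_div_lt (lt_min hρ (show 0 < ε / 2 by positivity))
    have hj0 : (0 : ℝ) < (j : ℝ) + 1 := by positivity
    have h3 : s ∉ N j := fun h => hs (Set.mem_iUnion.2 ⟨j, h⟩)
    have h4 : ∃ s' ∈ K, |s' - s| < 1 / ((j : ℝ) + 1) ∧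
        ((j : ℝ) + 1) * dist (γ s) (γ s') < |s' - s| := by
      by_contra hcon
      push Not at hcon
      exact h3 ⟨hsK, fun s' hs' hlt => hcon s' hs' hlt⟩
    obtain ⟨s', hs', h5, h6⟩ := h4
    have h7 : 0 < |s' - s| := lt_of_le_of_lt (by positivity) h6
    have h8 := h2 (show dist s' s < ρ by
      rw [Real.dist_eq]
      exact h5.trans (hj.trans_le (min_le_left _ _)))
    rw [Real.norm_eq_abs, Real.norm_eq_abs, smul_eq_mul] at h8
    have h9 : |u s' - u s| ≤ dist (γ s) (γ s') := by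
      rw [hu s' hs', hu s hsK, dist_comm (γ s)]
      have := abs_dist_sub_le (γ s') (γ s) x
      rwa [dist_comm (γ s') x, dist_comm (γ s) x] at this
    have h10 : dist (γ s) (γ s') ≤ ε / 2 * |s' - s| := by
      have h11 : 1 / ((j : ℝ) + 1) < ε / 2 := hj.trans_le (min_le_right _ _)
      have h12 : dist (γ s) (γ s') ≤ |s' - s| * (1 / ((j : ℝ) + 1)) := by
        rw [mul_one_div, le_div_iff₀ hj0]
        linarith
      nlinarith
    have h11 : |(s' - s) * deriv u s| ≤ ε * |s' - s| := by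
      have h12 : (s' - s) * deriv u s = (u s' - u s) - (u s' - u s - (s' - s) * deriv u s) := by
        ring
      rw [h12]
      refine (abs_sub _ _).trans ?_
      linarith
    rw [abs_mul, mul_comm] at h11
    rw [zero_add]
    exact le_of_mul_le_mul_right h11 h7
  · exact deriv_zero_of_not_differentiableAt hd

end Pool.Agent.Helper85.TS
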