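import Pool.Agent.Helper85.TS.Cpt

/-! Proper purely `1`-unrectifiable spaces have many locally flat functions. -/

namespace Pool.Agent.Helper85.TS

open ENNReal Filter Topology MeasureTheory

/-- Purely `1`-unrectifiable: no bi-Lipschitz image of a compact set of real numbers of positive
measure. -/
def PU (M : Type) [MetricSpace M] : Prop :=
  ∀ (K : Set ℝ) (γ : ℝ → M) (C : ℝ), IsCompact K →
    (∀ s ∈ K, ∀ t ∈ K, dist (γ s) (γ t) ≤ C * |s - t| ∧ |s - t| ≤ C * dist (γ s) (γ t)) →
    volume K = 0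

/-! ### One chain -/

section Chain

/-- The interpolated cost function of a chain with times `t` and costs `C`. -/
noncomputable def fc (t C : ℕ → ℝ) (n : ℕ) (s : ℝ) : ℝ :=
  (Finset.range (n + 1)).inf' ⟨0, Finset.mem_range.2 (Nat.succ_pos n)⟩
    fun i => C i + max (s - t i) 0

variable {t C : ℕ → ℝ} {n : ℕ}

theorem fc_le {i : ℕ} (hi : i ≤ n) (s : ℝ) : fc t C n s ≤ C i + max (s - t i) 0 :=
  Finset.inf'_le _ (Finset.mem_range.2 (Nat.lt_succ_of_le hi))

theorem le_fc {s a : ℝ} (h : ∀ i ≤ n, a ≤ C i + max (s - t i) 0) : a ≤ fc t C n s :=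
  Finset.le_inf' _ _ fun i hi => h i (Nat.le_of_lt_succ (Finset.mem_range.1 hi))

theorem fc_mono {s s' : ℝ} (h : s ≤ s') : fc t C n s ≤ fc t C n s' :=
  le_fc fun i hi => (fc_le hi s).trans (by gcongr)

theorem fc_lip (s s' : ℝ) : fc t C n s' ≤ fc t C n s + |s' - s| := by
  rw [← sub_le_iff_le_add]
  refine le_fc fun i hi => ?_
  rw [sub_le_iff_le_add]
  refine (fc_le hi s').trans ?_
  have h1 : max (s' - t i) 0 ≤ max (s - t i) 0 + |s' - s| := by
    refine max_le ?_ ?_
    · have := le_abs_self (s' - s)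
      have := le_max_left (s - t i) 0
      linarith
    · have := abs_nonneg (s' - s)
      have := le_max_right (s - t i) 0
      linarith
  linarith

theorem fc_abs (s s' : ℝ) : |fc t C n s - fc t C n s'| ≤ |s - s'| := by
  rw [abs_le]
  have h1 := fc_lip (t := t) (C := C) (n := n) s s'
  have h2 := fc_lip (t := t) (C := C) (n := n) s' s
  rw [abs_sub_comm s' s] at h1
  constructor <;> linarith

theorem fc_slope (hC : ∀ i j, i ≤ j → C i ≤ C j) (hCt : ∀ i j, i ≤ j → C j - C i ≤ t j - t i)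
    {i : ℕ} (hi : i < n) (hbig : C (i + 1) - C i = t (i + 1) - t i) {s : ℝ} (h1 : t i ≤ s)
    (h2 : s ≤ t (i + 1)) : fc t C n s = C i + (s - t i) := by
  refine le_antisymm ?_ ?_
  · refine (fc_le hi.le s).trans ?_
    rw [max_eq_left (by linarith)]
  · refine le_fc fun j _ => ?_
    rcases le_or_gt j i with hji | hji
    · have h3 := hCt j i hji
      have h4 := le_max_left (s - t j) 0
      linarith
    · have h3 := hC (i + 1) j hji
      have h4 := le_max_right (s - t j) 0
      linarith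

theorem exists_step {s : ℝ} (h0 : t 0 < s) (hn : s ≤ t n) : ∃ i < n, t i < s ∧ s ≤ t (i + 1) := by
  classical
  have hex : ∃ j, s ≤ t j := ⟨n, hn⟩
  have h1 : Nat.find hex ≠ 0 := fun h => by
    have := Nat.find_spec hex
    rw [h] at this
    linarith
  refine ⟨Nat.find hex - 1, ?_, ?_, ?_⟩
  · have := Nat.find_min' hex hn
    omega
  · exact not_le.1 (Nat.find_min hex (by omega))
  · rw [show Nat.find hex - 1 + 1 = Nat.find hex by omega]
    exact Nat.find_spec hex

end Chain

/-! ### Limits along an ultrafilter -/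

/-- bounded real sequences converge along the ultrafilter -/
theorem ulim {f : ℕ → ℝ} {a b : ℝ} (h : ∀ m, f m ∈ Set.Icc a b) :
    ∃ l ∈ Set.Icc a b, Tendsto f (hyperfilter ℕ : Filter ℕ) (𝓝 l) := by
  have h1 : Set.Icc a b ∈ Ultrafilter.map f (hyperfilter ℕ) := by
    rw [Ultrafilter.mem_map]
    exact Filter.univ_mem' h
  obtain ⟨l, hl1, hl2⟩ := isCompact_Icc.ultrafilter_le_nhds _ (le_principal_iff.2 h1)
  exact ⟨l, hl1, hl2⟩

theorem ulimM {M : Type} [MetricSpace M] {A : Set M} (hA : IsCompact A) {f : ℕ → M}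
    (h : ∀ m, f m ∈ A) : ∃ l ∈ A, Tendsto f (hyperfilter ℕ : Filter ℕ) (𝓝 l) := by
  have h1 : A ∈ Ultrafilter.map f (hyperfilter ℕ) := by
    rw [Ultrafilter.mem_map]
    exact Filter.univ_mem' h
  obtain ⟨l, hl1, hl2⟩ := hA.ultrafilter_le_nhds _ (le_principal_iff.2 h1)
  exact ⟨l, hl1, hl2⟩

/-- The analytic part: a 1-Lipschitz nondecreasing function which has slope `1` off the compact
set `K` dominates the increments of functions with vanishing derivative on `K`. -/
theorem mono_of_slope {K : Set ℝ} {F u : ℝ → ℝ} {b : ℝ} (hb : 0 ≤ b) (hF : LipschitzWith 1 F)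
    (hFm : Monotone F) (hu : LipschitzWith 1 u)
    (hoff : ∀ s, s ∉ K → 0 < s → s < b → HasDerivAt F 1 s)
    (hon : ∀ᵐ s, s ∈ K → deriv u s = 0) : u b - u 0 ≤ F b - F 0 := by
  have hFac : AbsolutelyContinuousOnInterval F 0 b :=
    (hF.lipschitzOnWith (s := Set.uIcc 0 b)).absolutelyContinuousOnInterval
  have huac : AbsolutelyContinuousOnInterval u 0 b :=
    (hu.lipschitzOnWith (s := Set.uIcc 0 b)).absolutelyContinuousOnInterval
  rw [← hFac.integral_deriv_eq_sub, ← huac.integral_deriv_eq_sub]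
  refine intervalIntegral.integral_mono_ae_restrict hb huac.intervalIntegrable_deriv
    hFac.intervalIntegrable_deriv ?_
  have h0 : ∀ᵐ s : ℝ, s ≠ 0 := by
    rw [ae_iff]
    simp
  have h1 : ∀ᵐ s : ℝ, s ≠ b := by
    rw [ae_iff]
    simp
  rw [Filter.EventuallyLE, ae_restrict_iff' measurableSet_Icc]
  filter_upwards [hon, h0, h1] with s hs h0 hb' hI
  by_cases hsK : s ∈ K
  · rw [hs hsK]
    exact hFm.deriv_nonneg
  · rw [(hoff s hsK (lt_of_le_of_ne hI.1 (Ne.symm h0)) (lt_of_le_of_ne hI.2 hb')).deriv]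
    refine (le_abs_self _).trans ?_
    have := norm_deriv_le_of_lipschitz (x₀ := s) hu
    rw [Real.norm_eq_abs] at this
    simpa using this

end Pool.Agent.Helper85.TS
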