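import Mathlib

/-! Reflexivity and separability of `ℓ_p`-sums. -/

namespace Pool.Agent.Helper85.TS

open NormedSpace ENNReal

/-- Reflexivity: the canonical embedding in the bidual is onto. -/
def Rfx (X : Type*) [NormedAddCommGroup X] [NormedSpace ℝ X] : Prop :=
  Function.Surjective (NormedSpace.inclusionInDoubleDual ℝ X)

theorem rfx_fin (X : Type*) [NormedAddCommGroup X] [NormedSpace ℝ X] [FiniteDimensional ℝ X] :
    Rfx X := by
  have hinj : Function.Injective (NormedSpace.inclusionInDoubleDual ℝ X).toLinearMap :=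
    (NormedSpace.inclusionInDoubleDualLi (E := X) ℝ).injective
  have h1 : ∀ (Y : Type _) [NormedAddCommGroup Y] [NormedSpace ℝ Y] [FiniteDimensional ℝ Y],
      Module.finrank ℝ (StrongDual ℝ Y) = Module.finrank ℝ Y ∧
        FiniteDimensional ℝ (StrongDual ℝ Y) := by
    intro Y _ _ _
    let e : Module.Dual ℝ Y ≃ₗ[ℝ] StrongDual ℝ Y := LinearMap.toContinuousLinearMap
    exact ⟨by rw [← e.finrank_eq, Subspace.dual_finrank_eq], Module.Finite.equiv e⟩
  have hA := (h1 X).2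
  have h2 : Module.finrank ℝ X = Module.finrank ℝ (StrongDual ℝ (StrongDual ℝ X)) := by
    rw [(h1 (StrongDual ℝ X)).1, (h1 X).1]
  have hC := (h1 (StrongDual ℝ X)).2
  exact (LinearMap.injective_iff_surjective_of_finrank_eq_finrank h2).1 hinj

theorem rfx_prod {X Y : Type*} [NormedAddCommGroup X] [NormedSpace ℝ X]
    [NormedAddCommGroup Y] [NormedSpace ℝ Y] (hX : Rfx X) (hY : Rfx Y) : Rfx (X × Y) := by
  intro Φ
  obtain ⟨x, hx⟩ := hX (Φ.comp ((ContinuousLinearMap.compL ℝ (X × Y) X ℝ).flip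
    (ContinuousLinearMap.fst ℝ X Y)))
  obtain ⟨y, hy⟩ := hY (Φ.comp ((ContinuousLinearMap.compL ℝ (X × Y) Y ℝ).flip
    (ContinuousLinearMap.snd ℝ X Y)))
  refine ⟨(x, y), ?_⟩
  ext f
  have h1 := DFunLike.congr_fun hx (f.comp (ContinuousLinearMap.inl ℝ X Y))
  have h2 := DFunLike.congr_fun hy (f.comp (ContinuousLinearMap.inr ℝ X Y))
  simp only [NormedSpace.dual_def, ContinuousLinearMap.comp_apply,
    ContinuousLinearMap.flip_apply, ContinuousLinearMap.compL_apply] at h1 h2 ⊢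
  have h3 : f = (f.comp (ContinuousLinearMap.inl ℝ X Y)).comp (ContinuousLinearMap.fst ℝ X Y) +
      (f.comp (ContinuousLinearMap.inr ℝ X Y)).comp (ContinuousLinearMap.snd ℝ X Y) := by
    refine ContinuousLinearMap.ext fun z => ?_
    change f z = f (ContinuousLinearMap.inl ℝ X Y z.1) + f (ContinuousLinearMap.inr ℝ X Y z.2)
    rw [← map_add]
    simp
  conv_rhs => rw [h3, map_add, ← h1, ← h2]
  have h4 : ((x, y) : X × Y) = ContinuousLinearMap.inl ℝ X Y x +
      ContinuousLinearMap.inr ℝ X Y y := by simp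
  rw [h4, map_add]

section Lp

variable {ι : Type*} {E : ι → Type*} [∀ i, NormedAddCommGroup (E i)] [∀ i, NormedSpace ℝ (E i)]
  {p : ℝ≥0∞} [Fact (1 ≤ p)]

/-- The functional on the sum given by a functional on a summand. -/
noncomputable def lft (i : ι) : StrongDual ℝ (E i) →L[ℝ] StrongDual ℝ (lp E p) :=
  (ContinuousLinearMap.compL ℝ (lp E p) (E i) ℝ).flip (lp.evalCLM ℝ E p i)

theorem lft_apply (i : ι) (g : StrongDual ℝ (E i)) (y : lp E p) :
    lft (p := p) i g y = g (y i) := rfl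

theorem hoelder_fin {P Q : ℝ} (hPQ : P.HolderConjugate Q) (s : Finset ι) (a b : ι → ℝ)
    (ha : ∀ i, 0 ≤ a i) (hb : ∀ i, 0 ≤ b i) :
    ∑ i ∈ s, a i * b i ≤ (∑ i ∈ s, a i ^ P) ^ (1 / P) * (∑ i ∈ s, b i ^ Q) ^ (1 / Q) :=
  Real.inner_le_Lp_mul_Lq_of_nonneg s hPQ (fun i _ => ha i) (fun i _ => hb i)

theorem rpow_conj {P Q : ℝ} (hPQ : P.HolderConjugate Q) {t : ℝ} (ht : 0 ≤ t) :
    (t ^ (P - 1)) ^ Q = t ^ P := by
  rw [← Real.rpow_mul ht, hPQ.sub_one_mul_conj]

theorem le_of_le_rpow {P Q A C : ℝ} (hPQ : P.HolderConjugate Q) (hA : 0 ≤ A) (hC : 0 ≤ C)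
    (h : A ≤ C * A ^ (1 / Q)) : A ≤ C ^ P := by
  rcases hA.eq_or_lt with h0 | h0
  · rw [← h0]; positivity
  · have h1 : A ^ (1 / P) ≤ C := by
      have h2 : A = A ^ (1 / P) * A ^ (1 / Q) := by
        rw [← Real.rpow_add h0, one_div, one_div, hPQ.inv_add_inv_eq_one, Real.rpow_one]
      have h3 : 0 < A ^ (1 / Q) := Real.rpow_pos_of_pos h0 _
      rw [h2] at h
      have h4 : A ^ (1 / P) * A ^ (1 / Q) ≤ C * A ^ (1 / Q) := by
        calc A ^ (1 / P) * A ^ (1 / Q) = A := h2.symm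
          _ ≤ _ := by rw [← h2] at h; exact h
      exact le_of_mul_le_mul_right h4 h3
    calc A = (A ^ (1 / P)) ^ P := by
          rw [← Real.rpow_mul hA, one_div_mul_cancel hPQ.ne_zero, Real.rpow_one]
      _ ≤ C ^ P := Real.rpow_le_rpow (by positivity) h1 hPQ.nonneg

/-- The `ℓ_p`-sum of reflexive spaces is reflexive. -/
theorem rfx_lp {Q : ℝ} (hPQ : p.toReal.HolderConjugate Q) (hp : p ≠ ⊤)
    (h : ∀ i, Rfx (E i)) : Rfx (lp E p) := by
  classical
  have hP0 : 0 < p.toReal := hPQ.pos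
  intro Φ
  choose x hx using fun i => h i (Φ.comp (lft i))
  have hx' : ∀ i (g : StrongDual ℝ (E i)), Φ (lft i g) = g (x i) := by
    intro i g
    have := DFunLike.congr_fun (hx i) g
    simp only [NormedSpace.dual_def, ContinuousLinearMap.comp_apply] at this
    exact this.symm
  choose g hg1 hg2 using fun i => exists_dual_vector'' ℝ (x i)
  -- the coordinates are in the sum
  have hmem : ∀ s : Finset ι, ∑ i ∈ s, ‖x i‖ ^ p.toReal ≤ ‖Φ‖ ^ p.toReal := by
    intro s
    set A := ∑ i ∈ s, ‖x i‖ ^ p.toReal with hA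
    have hA0 : 0 ≤ A := Finset.sum_nonneg fun i _ => by positivity
    let f : StrongDual ℝ (lp E p) := ∑ i ∈ s, (‖x i‖ ^ (p.toReal - 1)) • lft i (g i)
    have h1 : Φ f = A := by
      simp only [f, map_sum, map_smul, hx', hg2, smul_eq_mul]
      refine Finset.sum_congr rfl fun i _ => ?_
      rcases (norm_nonneg (x i)).eq_or_lt with h0 | h0
      · simp [← h0, Real.zero_rpow hP0.ne']
      · change ‖x i‖ ^ (p.toReal - 1) * ‖x i‖ = _
        nth_rw 2 [← Real.rpow_one ‖x i‖]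
        rw [← Real.rpow_add h0, sub_add_cancel]
    have h2 : ‖f‖ ≤ A ^ (1 / Q) := by
      refine ContinuousLinearMap.opNorm_le_bound _ (by positivity) fun y => ?_
      have h3 : ‖f y‖ ≤ ∑ i ∈ s, ‖y i‖ * ‖x i‖ ^ (p.toReal - 1) := by
        simp only [f, _root_.sum_apply, _root_.smul_apply, lft_apply,
          smul_eq_mul]
        refine (norm_sum_le _ _).trans (Finset.sum_le_sum fun i _ => ?_)
        rw [norm_mul, Real.norm_of_nonneg (by positivity), mul_comm]
        gcongr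
        calc ‖g i (y i)‖ ≤ ‖g i‖ * ‖y i‖ := (g i).le_opNorm _
          _ ≤ 1 * ‖y i‖ := by gcongr; exact hg1 i
          _ = ‖y i‖ := one_mul _
      refine h3.trans ?_
      refine (hoelder_fin hPQ s (fun i => ‖y i‖) (fun i => ‖x i‖ ^ (p.toReal - 1))
        (fun i => norm_nonneg _) (fun i => by positivity)).trans ?_
      rw [mul_comm]
      have h4 : (∑ i ∈ s, ‖y i‖ ^ p.toReal) ^ (1 / p.toReal) ≤ ‖y‖ := by
        calc (∑ i ∈ s, ‖y i‖ ^ p.toReal) ^ (1 / p.toReal) ≤ (‖y‖ ^ p.toReal) ^ (1 / p.toReal) :=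
              Real.rpow_le_rpow (Finset.sum_nonneg fun i _ => by positivity)
                (lp.sum_rpow_le_norm_rpow hP0 y s) (by positivity)
          _ = ‖y‖ := by
              rw [← Real.rpow_mul (norm_nonneg _), mul_one_div_cancel hP0.ne', Real.rpow_one]
      have h5 : ∑ i ∈ s, (‖x i‖ ^ (p.toReal - 1)) ^ Q = A :=
        Finset.sum_congr rfl fun i _ => rpow_conj hPQ (norm_nonneg _)
      rw [h5]
      gcongr
    refine le_of_le_rpow hPQ hA0 (norm_nonneg Φ) ?_
    calc A = Φ f := h1.symm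
      _ ≤ ‖Φ f‖ := Real.le_norm_self _
      _ ≤ ‖Φ‖ * ‖f‖ := Φ.le_opNorm f
      _ ≤ ‖Φ‖ * A ^ (1 / Q) := by gcongr
  let X : lp E p := ⟨x, memℓp_gen' hmem⟩
  have hX : ∀ i, X i = x i := fun i => rfl
  refine ⟨X, ?_⟩
  ext f
  rw [NormedSpace.dual_def]
  -- the coordinates of `f`
  let F : ∀ i, StrongDual ℝ (E i) := fun i => f.comp (lp.singleContinuousLinearMap ℝ E p i)
  have hF : ∀ i (y : E i), F i y = f (lp.single p i y) := fun i y => rfl
  have hsum : Summable fun i => ‖F i‖ ^ Q := by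
    have hy : ∀ i, ∃ y : E i, ‖y‖ ≤ 1 ∧ ‖F i‖ ≤ 2 * F i y := by
      intro i
      rcases (norm_nonneg (F i)).eq_or_lt with h0 | h0
      · exact ⟨0, by simp, by simp [← h0]⟩
      · obtain ⟨y, hy1, hy2⟩ := (F i).exists_lt_apply_of_lt_opNorm
          (show ‖F i‖ / 2 < ‖F i‖ by linarith)
        rcases le_total 0 (F i y) with h1 | h1
        · refine ⟨y, hy1.le, ?_⟩
          rw [Real.norm_of_nonneg h1] at hy2
          linarith
        · refine ⟨-y, by rw [norm_neg]; exact hy1.le, ?_⟩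
          rw [Real.norm_of_nonpos h1] at hy2
          rw [map_neg]
          linarith
    choose y hy1 hy2 using hy
    refine summable_of_sum_le (c := (2 * ‖f‖) ^ Q) (fun i => by positivity) fun s => ?_
    set B := ∑ i ∈ s, ‖F i‖ ^ Q with hB
    have hB0 : 0 ≤ B := Finset.sum_nonneg fun i _ => by positivity
    let z : lp E p := ∑ i ∈ s, lp.single p i (‖F i‖ ^ (Q - 1) • y i)
    have hz : ‖z‖ ≤ B ^ (1 / p.toReal) := by
      have h1 : ‖z‖ ^ p.toReal ≤ B := by
        rw [lp.norm_sum_single hP0 (fun i => ‖F i‖ ^ (Q - 1) • y i) s]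
        refine Finset.sum_le_sum fun i _ => ?_
        rw [norm_smul, Real.norm_of_nonneg (by positivity)]
        calc (‖F i‖ ^ (Q - 1) * ‖y i‖) ^ p.toReal ≤ (‖F i‖ ^ (Q - 1) * 1) ^ p.toReal := by
              refine Real.rpow_le_rpow (by positivity) ?_ hP0.le
              gcongr
              exact hy1 i
          _ = ‖F i‖ ^ Q := by rw [mul_one, rpow_conj hPQ.symm (norm_nonneg _)]
      calc ‖z‖ = (‖z‖ ^ p.toReal) ^ (1 / p.toReal) := by
            rw [← Real.rpow_mul (norm_nonneg _), mul_one_div_cancel hP0.ne', Real.rpow_one]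
        _ ≤ B ^ (1 / p.toReal) := Real.rpow_le_rpow (by positivity) h1 (by positivity)
    have hfz : B ≤ 2 * f z := by
      have h1 : f z = ∑ i ∈ s, ‖F i‖ ^ (Q - 1) * F i (y i) := by
        simp only [z, map_sum]
        refine Finset.sum_congr rfl fun i _ => ?_
        rw [← hF, map_smul, smul_eq_mul]
      rw [h1, Finset.mul_sum]
      refine Finset.sum_le_sum fun i _ => ?_
      have h2 : ‖F i‖ ^ Q = ‖F i‖ ^ (Q - 1) * ‖F i‖ := by
        rcases (norm_nonneg (F i)).eq_or_lt with h0 | h0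
        · simp [← h0, Real.zero_rpow hPQ.symm.ne_zero]
        · nth_rw 3 [← Real.rpow_one ‖F i‖]
          rw [← Real.rpow_add h0, sub_add_cancel]
      rw [h2]
      calc ‖F i‖ ^ (Q - 1) * ‖F i‖ ≤ ‖F i‖ ^ (Q - 1) * (2 * F i (y i)) := by
            gcongr
            exact hy2 i
        _ = 2 * (‖F i‖ ^ (Q - 1) * F i (y i)) := by ring
    refine le_of_le_rpow hPQ.symm hB0 (by positivity) ?_
    calc B ≤ 2 * f z := hfz
      _ ≤ 2 * ‖f z‖ := by gcongr; exact Real.le_norm_self _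
      _ ≤ 2 * (‖f‖ * ‖z‖) := by gcongr; exact f.le_opNorm z
      _ ≤ 2 * (‖f‖ * B ^ (1 / p.toReal)) := by gcongr
      _ = 2 * ‖f‖ * B ^ (1 / p.toReal) := by ring
  -- approximation
  have happ : ∀ ε > 0, ∃ s : Finset ι, ∀ v : lp E p,
      ‖f v - ∑ i ∈ s, F i (v i)‖ ≤ ε * ‖v‖ := by
    intro ε hε
    obtain ⟨s, hs⟩ := summable_iff_vanishing_norm.1 hsum (ε ^ Q) (by positivity)
    refine ⟨s, fun v => ?_⟩
    have h1 : Filter.Tendsto (fun t : Finset ι => ∑ i ∈ t, F i (v i)) Filter.atTop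
        (nhds (f v)) := by
      have h2 := (lp.hasSum_single hp v).map f f.continuous
      exact h2
    have h3 : Filter.Tendsto (fun t : Finset ι => ‖∑ i ∈ t, F i (v i) - ∑ i ∈ s, F i (v i)‖)
        Filter.atTop (nhds ‖f v - ∑ i ∈ s, F i (v i)‖) := (h1.sub_const _).norm
    refine le_of_tendsto h3 ?_
    filter_upwards [Filter.eventually_ge_atTop s] with t hst
    have h4 : ∑ i ∈ t, F i (v i) - ∑ i ∈ s, F i (v i) = ∑ i ∈ t \ s, F i (v i) := by
      rw [← Finset.sum_sdiff (show s ⊆ t from hst)]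
      ring
    rw [h4]
    have h5 : ‖∑ i ∈ t \ s, F i (v i)‖ ≤ ∑ i ∈ t \ s, ‖v i‖ * ‖F i‖ := by
      refine (norm_sum_le _ _).trans (Finset.sum_le_sum fun i _ => ?_)
      rw [mul_comm]
      exact (F i).le_opNorm _
    refine h5.trans ?_
    refine (hoelder_fin hPQ (t \ s) (fun i => ‖v i‖) (fun i => ‖F i‖)
      (fun i => norm_nonneg _) (fun i => norm_nonneg _)).trans ?_
    have h6 : (∑ i ∈ t \ s, ‖v i‖ ^ p.toReal) ^ (1 / p.toReal) ≤ ‖v‖ := by
      calc (∑ i ∈ t \ s, ‖v i‖ ^ p.toReal) ^ (1 / p.toReal)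
          ≤ (‖v‖ ^ p.toReal) ^ (1 / p.toReal) :=
            Real.rpow_le_rpow (Finset.sum_nonneg fun i _ => by positivity)
              (lp.sum_rpow_le_norm_rpow hP0 v _) (by positivity)
        _ = ‖v‖ := by
            rw [← Real.rpow_mul (norm_nonneg _), mul_one_div_cancel hP0.ne', Real.rpow_one]
    have h7 : (∑ i ∈ t \ s, ‖F i‖ ^ Q) ^ (1 / Q) ≤ ε := by
      have h8 := hs (t \ s) Finset.sdiff_disjoint
      have h9 : ∑ i ∈ t \ s, ‖F i‖ ^ Q ≤ ε ^ Q := (Real.le_norm_self _).trans h8.le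
      calc (∑ i ∈ t \ s, ‖F i‖ ^ Q) ^ (1 / Q) ≤ (ε ^ Q) ^ (1 / Q) :=
            Real.rpow_le_rpow (Finset.sum_nonneg fun i _ => by positivity) h9
              (by have := hPQ.symm.pos; positivity)
        _ = ε := by
            rw [← Real.rpow_mul hε.le, mul_one_div_cancel hPQ.symm.ne_zero, Real.rpow_one]
    calc _ ≤ ‖v‖ * ε := by
          refine mul_le_mul h6 h7 ?_ (norm_nonneg _)
          exact Real.rpow_nonneg (Finset.sum_nonneg fun i _ => by positivity) _
      _ = ε * ‖v‖ := mul_comm _ _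
  -- conclusion
  refine eq_of_forall_dist_le fun ε hε => ?_
  obtain ⟨s, hs⟩ := happ (ε / (‖Φ‖ + ‖X‖ + 1)) (by positivity)
  set δ := ε / (‖Φ‖ + ‖X‖ + 1) with hδ
  have hδ0 : 0 < δ := by positivity
  let fs : StrongDual ℝ (lp E p) := ∑ i ∈ s, lft i (F i)
  have h1 : ∀ v : lp E p, fs v = ∑ i ∈ s, F i (v i) := by
    intro v
    simp only [fs, _root_.sum_apply, lft_apply]
  have h2 : ‖f - fs‖ ≤ δ := by
    refine ContinuousLinearMap.opNorm_le_bound _ hδ0.le fun v => ?_
    rw [_root_.sub_apply, h1]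
    exact hs v
  have h3 : Φ fs = fs X := by
    rw [h1]
    simp only [fs, map_sum, hx', hX]
  have h4 : f X - Φ f = (f X - fs X) - Φ (f - fs) := by
    rw [map_sub, h3]; ring
  rw [dist_eq_norm, h4]
  calc ‖(f X - fs X) - Φ (f - fs)‖ ≤ ‖f X - fs X‖ + ‖Φ (f - fs)‖ := norm_sub_le _ _
    _ ≤ δ * ‖X‖ + ‖Φ‖ * δ := by
        refine add_le_add ?_ ?_
        · rw [h1]; exact hs X
        · exact (Φ.le_opNorm _).trans (by gcongr)
    _ ≤ δ * (‖Φ‖ + ‖X‖ + 1) := by nlinarith [norm_nonneg Φ, norm_nonneg X]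
    _ = ε := by rw [hδ]; field_simp

/-- Countable `ℓ_p`-sums of separable spaces are separable. -/
theorem sep_lp [Countable ι] [∀ i, TopologicalSpace.SeparableSpace (E i)] (hp : p ≠ ⊤) :
    TopologicalSpace.SeparableSpace (lp E p) := by
  classical
  have h1 : TopologicalSpace.IsSeparable (⋃ i, Set.range (lp.singleContinuousLinearMap ℝ E p i)) :=
    TopologicalSpace.IsSeparable.iUnion fun i =>
      TopologicalSpace.isSeparable_range (lp.singleContinuousLinearMap ℝ E p i).continuous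
  have h2 := (TopologicalSpace.IsSeparable.span (R := ℝ) h1).closure
  have h3 : closure (Submodule.span ℝ
      (⋃ i, Set.range (lp.singleContinuousLinearMap ℝ E p i)) : Set (lp E p)) = Set.univ := by
    refine Set.eq_univ_of_forall fun v => ?_
    refine mem_closure_of_tendsto (lp.hasSum_single hp v) ?_
    refine Filter.Eventually.of_forall fun s => ?_
    refine Submodule.sum_mem _ fun i _ => ?_
    exact Submodule.subset_span (Set.mem_iUnion.2 ⟨i, v i, rfl⟩)
  rw [h3] at h2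
  exact TopologicalSpace.isSeparable_univ_iff.1 h2

end Lp

end Pool.Agent.Helper85.TS
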